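import Mathlib

namespace Pool.Agent.Helper26.Bg

open Finset Real

/-- merging of signs -/
theorem sum_merge {J α : Type*} [Fintype J] [DecidableEq J] [Fintype α] [DecidableEq α]
    (τ : J → α → α) (h : J → α → ℝ) (F : (J → α) → ℝ) (hF : ∀ σ, 0 ≤ F σ)
    (hh : ∀ j s, 0 ≤ h j s)
    (h1 : ∀ j s, ∑ s', (if τ j s' = s then h j s' else 0) ≤ 1) :
    ∑ σ' : J → α, (∏ j, h j (σ' j)) * F (fun j => τ j (σ' j)) ≤ ∑ σ, F σ := by
  have e1 : ∀ σ' : J → α, (∏ j, h j (σ' j)) * F (fun j => τ j (σ' j))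
      = ∑ σ : J → α, F σ * ∏ j, (if τ j (σ' j) = σ j then h j (σ' j) else 0) := by
    intro σ'
    rw [Finset.sum_eq_single (fun j => τ j (σ' j))]
    · rw [mul_comm]
      congr 1
      exact Finset.prod_congr rfl fun j _ => by rw [if_pos rfl]
    · intro σ _ hσ
      have : ∃ j, τ j (σ' j) ≠ σ j := by
        by_contra hcon
        push Not at hcon
        exact hσ (funext fun j => (hcon j).symm)
      obtain ⟨j, hj⟩ := this
      rw [Finset.prod_eq_zero (Finset.mem_univ j) (by rw [if_neg hj]), mul_zero]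
    · intro h; exact absurd (Finset.mem_univ _) h
  simp only [e1]
  rw [Finset.sum_comm]
  refine Finset.sum_le_sum fun σ _ => ?_
  rw [← Finset.mul_sum]
  have e2 : ∑ σ' : J → α, ∏ j, (if τ j (σ' j) = σ j then h j (σ' j) else 0)
      = ∏ j, ∑ s', (if τ j s' = σ j then h j s' else 0) := by
    rw [Finset.prod_univ_sum]
    rw [Fintype.piFinset_univ]
  rw [e2]
  have e3 : ∏ j, ∑ s', (if τ j s' = σ j then h j s' else 0) ≤ 1 := by
    apply Finset.prod_le_one
    · intro j _
      apply Finset.sum_nonneg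
      intro s' _
      split_ifs
      · exact hh j s'
      · exact le_rfl
    · intro j _; exact h1 j (σ j)
  calc F σ * _ ≤ F σ * 1 := mul_le_mul_of_nonneg_left e3 (hF σ)
    _ = F σ := mul_one _

/-- value of a sign choice -/
def vl : Option Bool → ℝ
  | none => 0
  | some true => 1
  | some false => -1

/-- factor of a sign choice -/
noncomputable def gg (y : ℝ) : Option Bool → ℝ
  | none => 1
  | some _ => (exp y - 1) / 2

theorem gg_nonneg {y : ℝ} (hy : 0 ≤ y) (s : Option Bool) : 0 ≤ gg y s := by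
  cases s with
  | none => exact zero_le_one
  | some b =>
    change 0 ≤ (exp y - 1) / 2
    have := one_le_exp hy
    linarith

theorem sum_gg (y : ℝ) (t : Option Bool → ℝ) :
    ∑ s, gg y s * t s = t none + (exp y - 1) / 2 * (t (some true) + t (some false)) := by
  rw [Fintype.sum_option, Fintype.sum_bool]
  simp only [gg]
  ring

theorem abs_vl_le (s : Option Bool) : |vl s| ≤ 1 := by
  rcases s with _ | b
  · simp [vl]
  · cases b <;> simp [vl]

/-- the numerical inequality at a change of level -/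
theorem level_num {y Y : ℝ} (hy : 0 ≤ y) (hyY : y ≤ Y) :
    (exp (4 * y) - 1) / 2 * exp (25 / 3 * (1 + Y) - 12 * (1 + Y)) ≤ 1 / 2 * ((exp y - 1) / 2) := by
  set E := exp y with hE
  have hE1 : 1 ≤ E := one_le_exp hy
  have e4 : exp (4 * y) = E ^ 4 := by rw [hE, ← exp_nat_mul]; push_cast; rfl
  rw [e4]
  have hz : exp (25 / 3 * (1 + Y) - 12 * (1 + Y)) ≤ 1 / (8 * E ^ 3) := by
    have h8 : (8 : ℝ) ≤ exp 3 := by
      have h1 : (2 : ℝ) ≤ exp 1 := by
        have := add_one_le_exp (1 : ℝ); linarith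
      have h2 : exp (3 : ℝ) = exp 1 ^ 3 := by rw [← exp_nat_mul]; norm_num
      rw [h2]
      calc (8 : ℝ) = 2 ^ 3 := by norm_num
        _ ≤ _ := pow_le_pow_left₀ (by norm_num) h1 3
    have h3 : E ^ 3 = exp (3 * y) := by rw [hE, ← exp_nat_mul]; push_cast; rfl
    have h4 : 8 * E ^ 3 ≤ exp (11 / 3 * (1 + Y)) := by
      rw [h3]
      calc 8 * exp (3 * y) ≤ exp 3 * exp (3 * y) := mul_le_mul_of_nonneg_right h8 (exp_pos _).le
        _ = exp (3 + 3 * y) := by rw [← exp_add]
        _ ≤ _ := exp_le_exp.2 (by linarith)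
    have h5 : exp (25 / 3 * (1 + Y) - 12 * (1 + Y)) = 1 / exp (11 / 3 * (1 + Y)) := by
      rw [one_div, ← exp_neg]; congr 1; ring
    rw [h5]
    exact one_div_le_one_div_of_le (by positivity) h4
  have h6 : (E ^ 4 - 1) / 2 ≤ (E - 1) / 2 * (4 * E ^ 3) := by
    have h7 : E ^ 4 - 1 = (E - 1) * (1 + E + E ^ 2 + E ^ 3) := by ring
    have h8 : 1 + E + E ^ 2 + E ^ 3 ≤ 4 * E ^ 3 := by
      have a1 : E ≤ E ^ 3 := by
        calc E = E ^ 1 := (pow_one E).symm
          _ ≤ E ^ 3 := pow_le_pow_right₀ hE1 (by norm_num)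
      have a2 : E ^ 2 ≤ E ^ 3 := pow_le_pow_right₀ hE1 (by norm_num)
      have a3 : 1 ≤ E ^ 3 := one_le_pow₀ hE1
      linarith
    rw [h7]
    have := mul_le_mul_of_nonneg_left h8 (show 0 ≤ (E - 1) / 2 by linarith)
    linarith
  have h0 : 0 ≤ (E ^ 4 - 1) / 2 := by
    have := one_le_pow₀ (n := 4) hE1
    linarith
  calc (E ^ 4 - 1) / 2 * exp (25 / 3 * (1 + Y) - 12 * (1 + Y))
      ≤ (E - 1) / 2 * (4 * E ^ 3) * (1 / (8 * E ^ 3)) :=
        mul_le_mul h6 hz (exp_pos _).le (by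
          have : 0 ≤ E - 1 := by linarith
          positivity)
    _ = 1 / 2 * ((E - 1) / 2) := by
        have : E ^ 3 ≠ 0 := by positivity
        field_simp
        ring

end Pool.Agent.Helper26.Bg
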