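import Pool.Agent.Helper26.Bg.Proc
import Pool.Agent.Helper26.Loc.Local

set_option linter.unusedSectionVars false

namespace Pool.Agent.Helper26.Bg

open Finset Real
open Pool.Agent.Helper26.Bf
open Pool.Agent.Helper26.Loc (nb mem_nb subset_nb nb_mono nbi_mono subset_nbi nbi_le dev_congr sgb)
open Pool.Agent.Helper26.Gsw (dev)

section ops

variable {V J : Type*} [Fintype V] [DecidableEq V] [Fintype J]
variable {c : J → V → ℝ} {f f' : V → ℝ} {w w' : J → ℝ} {e : ℝ}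

theorem Hop_congr {S : Finset V} (hf : ∀ i ∈ nb c S, f i = f' i)
    (hw : ∀ j, (∃ i ∈ S, c j i ≠ 0) → w j = w' j) {y y' : V → ℝ}
    (hy : ∀ i ∈ nb c S, y i = y' i) {i : V} (hi : i ∈ S) :
    Hop c f w y i = Hop c f' w' y' i := by
  rw [Hop_apply, Hop_apply, sg_apply, sg_apply, hf i (subset_nb S hi)]
  congr 1
  refine Finset.sum_congr rfl fun j _ => ?_
  by_cases h0 : c j i = 0
  · rw [h0, zero_mul, zero_mul]
  · rw [hw j ⟨i, hi, h0⟩]
    congr 2
    rw [sT_apply, sT_apply]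
    refine Finset.sum_congr rfl fun i' _ => ?_
    by_cases h1 : c j i' = 0
    · rw [h1, zero_mul, zero_mul]
    · have hm : i' ∈ nb c S := mem_nb.2 (Or.inr ⟨i, hi, j, h0, h1⟩)
      rw [hf i' hm, hy i' hm]

theorem RO_congr (k : ℕ) : ∀ (S : Finset V), (∀ i ∈ (nb c)^[k] S, f i = f' i) →
    (∀ j, (∃ i ∈ (nb c)^[k] S, c j i ≠ 0) → w j = w' j) →
    ∀ {ξ ξ' : V → ℝ}, (∀ i ∈ (nb c)^[k] S, ξ i = ξ' i) → ∀ i ∈ S,
    RO c f w e k ξ i = RO c f' w' e k ξ' i := by
  induction k with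
  | zero => intro S _ _ ξ ξ' _ i _; rw [RO_zero, RO_zero]
  | succ k ih =>
    intro S hf hw ξ ξ' hξ i hi
    have hS : ∀ i ∈ S, i ∈ (nb c)^[k + 1] S := fun i hi => subset_nbi S _ hi
    rw [Function.iterate_succ_apply] at hf hw hξ
    have hrec : ∀ i ∈ nb c S, RO c f w e k ξ i = RO c f' w' e k ξ' i :=
      ih (nb c S) hf hw hξ
    have hsub : nb c S ⊆ (nb c)^[k] (nb c S) := subset_nbi _ _
    rw [RO_succ, RO_succ, NO_apply, NO_apply, hξ i (hsub (subset_nb S hi)),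
      hrec i (subset_nb S hi), Hop_congr (fun i hi => hf i (hsub hi)) (fun j hj => by
        obtain ⟨i, hi, h⟩ := hj
        exact hw j ⟨i, hsub (subset_nb S hi), h⟩) hrec hi]

end ops

namespace Par

variable {V J : Type*} [Fintype V] [DecidableEq V] [Fintype J] [DecidableEq J] {P : Par V J}

/-- the states agree on `S` -/
def StEq (P : Par V J) (S : Finset V) (st st' : St V J) : Prop :=
  (∀ i ∈ S, st.x i = st'.x i) ∧
    ∀ j, (∃ i ∈ S, P.c j i ≠ 0) → st.k j = st'.k j ∧ st.s j = st'.s j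

theorem alive_congr {S : Finset V} {st st' : St V J} (h : P.StEq S st st') {i : V}
    (hi : i ∈ S) : i ∈ P.alive st ↔ i ∈ P.alive st' := by
  rw [mem_alive, mem_alive, h.1 i hi]
  have hk : ∀ j, P.c j i ≠ 0 → st.k j = st'.k j := fun j hj => (h.2 j ⟨i, hi, hj⟩).1
  have hl : P.load st.k i = P.load st'.k i := by
    unfold load wt
    refine Finset.sum_congr rfl fun j _ => ?_
    by_cases h0 : P.c j i = 0
    · rw [h0]; ring
    · rw [hk j h0]
  rw [hl]
  constructor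
  · rintro ⟨h1, h2, h3⟩
    exact ⟨h1, h2, fun j hj => by rw [← hk j hj]; exact h3 j hj⟩
  · rintro ⟨h1, h2, h3⟩
    exact ⟨h1, h2, fun j hj => by rw [hk j hj]; exact h3 j hj⟩

theorem ff_congr {S : Finset V} {st st' : St V J} (h : P.StEq S st st') {i : V}
    (hi : i ∈ S) : P.ff st i = P.ff st' i := by
  unfold ff
  rw [h.1 i hi]
  by_cases h1 : i ∈ P.alive st
  · rw [if_pos h1, if_pos ((alive_congr h hi).1 h1)]
  · rw [if_neg h1, if_neg (fun h2 => h1 ((alive_congr h hi).2 h2))]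

theorem nx_congr {S : Finset V} {st st' : St V J} {ξ ξ' : V → ℝ}
    (h : P.StEq ((nb P.c)^[2 * P.d] S) st st')
    (hξ : ∀ i ∈ (nb P.c)^[2 * P.d] S, ξ i = ξ' i) {i : V} (hi : i ∈ S) :
    P.nx st ξ i = P.nx st' ξ' i := by
  have hi' : i ∈ (nb P.c)^[2 * P.d] S := subset_nbi S _ hi
  unfold nx mvx
  rw [h.1 i hi', ff_congr h hi', RO_congr (f' := P.ff st') (w' := P.wt st'.k) (2 * P.d) S
    (fun i hi => ff_congr h hi) (fun j hj => by unfold wt; rw [(h.2 j hj).1]) hξ i hi]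

theorem step_congr {S : Finset V} {st st' : St V J} {ξ ξ' : V → ℝ}
    (h : P.StEq ((nb P.c)^[2 * P.d + 1] S) st st')
    (hξ : ∀ i ∈ (nb P.c)^[2 * P.d + 1] S, ξ i = ξ' i) :
    P.StEq S (P.step st ξ) (P.step st' ξ') := by
  have hS : ∀ i ∈ S, i ∈ (nb P.c)^[2 * P.d + 1] S := fun i hi => subset_nbi S _ hi
  have hst : ∀ j, (∃ i ∈ S, P.c j i ≠ 0) → st.k j = st'.k j ∧ st.s j = st'.s j := by
    rintro j ⟨i, hi, hj⟩
    exact h.2 j ⟨i, hS i hi, hj⟩
  rw [Function.iterate_succ_apply] at h hξ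
  have hnx : ∀ i ∈ nb P.c S, P.nx st ξ i = P.nx st' ξ' i := fun i hi => nx_congr h hξ hi
  refine ⟨fun i hi => hnx i (subset_nb S hi), fun j hj => ?_⟩
  obtain ⟨hk, hs⟩ := hst j hj
  obtain ⟨i, hi, hji⟩ := hj
  have hdev : dev P.c P.z j (P.nx st ξ) = dev P.c P.z j (P.nx st' ξ') := dev_congr hnx hi hji
  have hup : P.Up st (P.nx st ξ) j ↔ P.Up st' (P.nx st' ξ') j := by
    unfold Up
    rw [hk, hs, hdev]
  by_cases h1 : P.Up st (P.nx st ξ) j
  · have h2 := hup.1 h1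
    rw [step_k_of_up h1, step_k_of_up h2, step_s_of_up h1, step_s_of_up h2, hk, hdev]
    exact ⟨rfl, rfl⟩
  · have h2 := fun h => h1 (hup.2 h)
    rw [step_k_of_not_up h1, step_k_of_not_up h2, step_s_of_not_up h1, step_s_of_not_up h2]
    exact ⟨hk, hs⟩

/-- locality of the walk -/
theorem xs_congr (n : ℕ) : ∀ (S : Finset V) {ω ω' : V → Fin P.N → Bool},
    (∀ v ∈ (nb P.c)^[n * (2 * P.d + 1)] S, ω v = ω' v) →
    P.StEq S (P.xs ω n) (P.xs ω' n) := by
  induction n with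
  | zero => intro S ω ω' _; exact ⟨fun i _ => rfl, fun j _ => ⟨rfl, rfl⟩⟩
  | succ n ih =>
    intro S ω ω' h
    apply step_congr (S := S)
    · apply ih
      intro v hv
      apply h
      rw [Nat.succ_mul, Function.iterate_add_apply]
      exact hv
    · intro i' hi'
      unfold bit
      rw [h i']
      exact nbi_le S (Nat.le_mul_of_pos_left _ (Nat.succ_pos n)) hi'

/-- fixed coordinates -/
theorem x_fixed (hP : P.Ok) {i : V} (hi : |P.z i| = 1) (ω : V → Fin P.N → Bool) (n : ℕ) :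
    (P.xs ω n).x i = P.z i := by
  have hδ : 0 < P.δ := lt_of_lt_of_le (mul_pos hP.hγ (by have := U_pos hP; positivity)) hP.hδ
  induction n with
  | zero => rfl
  | succ n ih =>
    change P.nx (P.xs ω n) (P.bit ω n) i = P.z i
    rw [nx_of_not_mem, ih]
    intro h
    have h1 := (mem_alive.1 h).1
    rw [ih, hi] at h1
    linarith

/-- untouched rows -/
theorem k_fixed (hP : P.Ok) {j : J} (hj : ∀ i, P.c j i ≠ 0 → |P.z i| = 1)
    (ω : V → Fin P.N → Bool) (n : ℕ) :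
    (P.xs ω n).k j = 0 ∧ (P.xs ω n).s j = 0 := by
  have hdev : ∀ m, dev P.c P.z j (P.xs ω m).x = 0 := by
    intro m
    unfold dev
    refine Finset.sum_eq_zero fun i _ => ?_
    by_cases h0 : P.c j i = 0
    · rw [h0, zero_mul]
    · rw [x_fixed hP (hj i h0), sub_self, mul_zero]
  induction n with
  | zero => exact ⟨rfl, rfl⟩
  | succ n ih =>
    have h1 : ¬ P.Up (P.xs ω n) (P.nx (P.xs ω n) (P.bit ω n)) j := by
      intro h
      have h2 := h.2
      have h3 : dev P.c P.z j (P.nx (P.xs ω n) (P.bit ω n)) = 0 := hdev (n + 1)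
      rw [h3, ih.2, sub_self, abs_zero] at h2
      exact absurd h2 (not_le.2 (hP.gp_pos _))
    change (P.step (P.xs ω n) (P.bit ω n)).k j = 0 ∧ (P.step (P.xs ω n) (P.bit ω n)).s j = 0
    rw [step_k_of_not_up h1, step_s_of_not_up h1]
    exact ih

end Par

end Pool.Agent.Helper26.Bg
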