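import Pool.Agent.Helper26.Bg.Surv
import Pool.Agent.Helper26.Bg.Stop
import Pool.Agent.Helper26.Bg.Local
import Pool.Agent.Helper26.Bf.Sep
import Pool.Agent.Helper26.Loc.Events
import Pool.Agent.Helper26.GswRec

set_option linter.unusedSectionVars false

namespace Pool.Agent.Helper26.Bg

open Finset Real
open Pool.Agent.Helper26.Bf
open Pool.Agent.Helper26.Loc (nb mem_nb subset_nb nb_mono nbi_mono subset_nbi nbi_le nbi_overlap
  card_nbi_le tq Rq Rq.symm su Rq_su card_Rq avg avg_mul_left avg_mul_right avg_mono avg_const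
  avg_sum ind ind_true ind_false ind_nonneg ind_mono avg_ind_mem DepOn lll)
open Pool.Agent.Helper26.Gsw (dev chains card_chains mem_chains cl mem_cl long_chain touched)

section chainsupp

variable {V J : Type*} [Fintype V] [DecidableEq V] [Fintype J] {c : J → V → ℝ}

theorem Rr_su {a b : J ⊕ V} (h : Rr (Rq c) a b) : su c b ⊆ (nb c)^[2] (su c a) := by
  rcases h with h | h
  · rw [h]; exact subset_nbi _ _
  · exact Rq_su h

theorem R3_su {a b : J ⊕ V} (h : R3 (Rq c) a b) : su c b ⊆ (nb c)^[6] (su c a) := by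
  obtain ⟨u, v, h1, h2, h3⟩ := h
  have e1 := Rr_su h1
  have e2 := (Rr_su h2).trans (nbi_mono e1 2)
  have e3 := (Rr_su h3).trans (nbi_mono e2 2)
  rw [← Function.iterate_add_apply, ← Function.iterate_add_apply] at e3
  exact e3

theorem chains3_su (n : ℕ) : ∀ (a : J ⊕ V), ∀ l ∈ chains (R3 (Rq c)) n a, ∀ b ∈ l,
    su c b ⊆ (nb c)^[6 * n] (su c a) := by
  induction n with
  | zero =>
    intro a l hl b hb
    have : l = [a] := by simpa [chains] using hl
    rw [this, List.mem_singleton] at hb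
    rw [hb]
    exact subset_rfl
  | succ n ih =>
    intro a l hl b hb
    simp only [chains, Finset.mem_biUnion, Finset.mem_filter, Finset.mem_univ, true_and,
      Finset.mem_image] at hl
    obtain ⟨a', ha', l', hl', rfl⟩ := hl
    rcases List.mem_cons.1 hb with hb | hb
    · rw [hb]; exact subset_nbi _ _
    · refine (ih a' l' hl' b hb).trans ?_
      rw [show 6 * (n + 1) = 6 * n + 6 by ring, Function.iterate_add_apply]
      exact nbi_mono (R3_su ha') _

end chainsupp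

namespace Par

variable {V J : Type*} [Fintype V] [DecidableEq V] [Fintype J] [DecidableEq J] {P : Par V J}

/-- radius of dependence -/
def kk (P : Par V J) : ℕ := P.N * (2 * P.d + 1)

/-- bad causes -/
def bad (P : Par V J) (ω : V → Fin P.N → Bool) : J ⊕ V → Prop
  | Sum.inl j => (P.xs ω P.N).k j = P.K + 1 ∧ ∃ i, P.c j i ≠ 0
  | Sum.inr i => |(P.xs ω P.N).x i| < 1 - P.δ ∧ (∃ j, P.c j i ≠ 0) ∧
      ∀ j, P.c j i ≠ 0 → (P.xs ω P.N).k j ≤ P.K

theorem bad_congr (a : J ⊕ V) {ω ω' : V → Fin P.N → Bool}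
    (h : ∀ v ∈ (nb P.c)^[P.kk] (su P.c a), ω v = ω' v) : P.bad ω a ↔ P.bad ω' a := by
  have hx := P.xs_congr P.N (su P.c a) h
  cases a with
  | inl j =>
    unfold bad
    constructor
    · rintro ⟨h1, i, hi⟩
      have := (hx.2 j ⟨i, by simpa [su] using hi, hi⟩).1
      exact ⟨by rw [← this]; exact h1, i, hi⟩
    · rintro ⟨h1, i, hi⟩
      have := (hx.2 j ⟨i, by simpa [su] using hi, hi⟩).1
      exact ⟨by rw [this]; exact h1, i, hi⟩
  | inr i =>
    have hi : i ∈ su P.c (Sum.inr i : J ⊕ V) := by simp [su]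
    have h1 := hx.1 i hi
    have h2 : ∀ j, P.c j i ≠ 0 → (P.xs ω P.N).k j = (P.xs ω' P.N).k j := fun j hj =>
      (hx.2 j ⟨i, hi, hj⟩).1
    change (|(P.xs ω P.N).x i| < 1 - P.δ ∧ (∃ j, P.c j i ≠ 0) ∧
      ∀ j, P.c j i ≠ 0 → (P.xs ω P.N).k j ≤ P.K) ↔ (|(P.xs ω' P.N).x i| < 1 - P.δ ∧
      (∃ j, P.c j i ≠ 0) ∧ ∀ j, P.c j i ≠ 0 → (P.xs ω' P.N).k j ≤ P.K)
    rw [h1]
    constructor
    · rintro ⟨h3, h4, h5⟩
      exact ⟨h3, h4, fun j hj => by rw [← h2 j hj]; exact h5 j hj⟩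
    · rintro ⟨h3, h4, h5⟩
      exact ⟨h3, h4, fun j hj => by rw [h2 j hj]; exact h5 j hj⟩

/-- the probabilistic input -/
structure Pr (P : Par V J) (ρ : ℝ) : Prop where
  stop : ∀ T : Finset J, avg (fun ω : V → Fin P.N → Bool =>
    ind (∀ j ∈ T, (P.xs ω P.N).k j = P.K + 1)) ≤ (ρ ^ 2) ^ #T
  tv : ∀ T : Finset V, (∀ i ∈ T, ∀ i' ∈ T, i ≠ i' → ∀ j, P.c j i = 0 ∨ P.c j i' = 0) →
    avg (fun ω : V → Fin P.N → Bool =>
      ind (∀ i ∈ T, i ∈ P.alive (P.xs ω P.N) ∨ 8 < P.load (P.xs ω P.N).k i)) ≤ (ρ ^ 2) ^ #T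

theorem tv_prob {r : ℝ} (hr0 : 0 ≤ r) (hr1 : r ≤ 1)
    (hover : ∀ A : Finset V, (∀ i ∈ A, ∀ i' ∈ A, i ≠ i' → ∀ j, P.c j i = 0 ∨ P.c j i' = 0) →
      avg (fun ω : V → Fin P.N → Bool => ind (∀ i ∈ A, 8 < P.load (P.xs ω P.N).k i))
        ≤ (r ^ 2) ^ #A)
    (hsurv : ∀ I : Finset V, avg (fun ω : V → Fin P.N → Bool =>
      ind (I ⊆ P.alive (P.xs ω P.N))) ≤ (r ^ 2) ^ #I)
    (T : Finset V) (hT : ∀ i ∈ T, ∀ i' ∈ T, i ≠ i' → ∀ j, P.c j i = 0 ∨ P.c j i' = 0) :
    avg (fun ω : V → Fin P.N → Bool =>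
      ind (∀ i ∈ T, i ∈ P.alive (P.xs ω P.N) ∨ 8 < P.load (P.xs ω P.N).k i)) ≤ (2 * r) ^ #T := by
  classical
  have hpt : ∀ ω : V → Fin P.N → Bool,
      ind (∀ i ∈ T, i ∈ P.alive (P.xs ω P.N) ∨ 8 < P.load (P.xs ω P.N).k i)
      ≤ ∑ A ∈ T.powerset, ind ((∀ i ∈ A, 8 < P.load (P.xs ω P.N).k i) ∧
          T \ A ⊆ P.alive (P.xs ω P.N)) := by
    intro ω
    by_cases h : ∀ i ∈ T, i ∈ P.alive (P.xs ω P.N) ∨ 8 < P.load (P.xs ω P.N).k i
    · set A := T.filter fun i => 8 < P.load (P.xs ω P.N).k i with hA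
      have hAT : A ∈ T.powerset := Finset.mem_powerset.2 (Finset.filter_subset _ _)
      have h1 : ind ((∀ i ∈ A, 8 < P.load (P.xs ω P.N).k i) ∧
          T \ A ⊆ P.alive (P.xs ω P.N)) = 1 := by
        apply ind_true
        refine ⟨fun i hi => (Finset.mem_filter.1 hi).2, fun i hi => ?_⟩
        obtain ⟨h2, h3⟩ := Finset.mem_sdiff.1 hi
        rcases h i h2 with h4 | h4
        · exact h4
        · exact absurd (Finset.mem_filter.2 ⟨h2, h4⟩) h3
      rw [ind_true h, ← h1]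
      exact Finset.single_le_sum (f := fun A : Finset V =>
        ind ((∀ i ∈ A, 8 < P.load (P.xs ω P.N).k i) ∧ T \ A ⊆ P.alive (P.xs ω P.N)))
        (fun A _ => ind_nonneg _) hAT
    · rw [ind_false h]
      exact Finset.sum_nonneg fun A _ => ind_nonneg _
  refine (avg_mono hpt).trans ?_
  rw [avg_sum]
  have hone : ∀ A ∈ T.powerset, avg (fun ω : V → Fin P.N → Bool =>
      ind ((∀ i ∈ A, 8 < P.load (P.xs ω P.N).k i) ∧ T \ A ⊆ P.alive (P.xs ω P.N)))
      ≤ r ^ #T := by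
    intro A hA
    have hAT := Finset.mem_powerset.1 hA
    have hcard : #A + #(T \ A) = #T := by
      rw [Finset.card_sdiff_of_subset hAT]
      have := Finset.card_le_card hAT
      omega
    rcases le_total #A #(T \ A) with h | h
    · refine (avg_mono (g := fun ω : V → Fin P.N → Bool =>
        ind (T \ A ⊆ P.alive (P.xs ω P.N))) fun ω => ind_mono fun h => h.2).trans ?_
      refine (hsurv _).trans ?_
      rw [← pow_mul]
      exact pow_le_pow_of_le_one hr0 hr1 (by omega)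
    · refine (avg_mono (g := fun ω : V → Fin P.N → Bool =>
        ind (∀ i ∈ A, 8 < P.load (P.xs ω P.N).k i)) fun ω => ind_mono fun h => h.1).trans ?_
      refine (hover A fun i hi i' hi' => hT i (hAT hi) i' (hAT hi')).trans ?_
      rw [← pow_mul]
      exact pow_le_pow_of_le_one hr0 hr1 (by omega)
  calc _ ≤ ∑ _A ∈ T.powerset, r ^ #T := Finset.sum_le_sum hone
    _ = (2 * r) ^ #T := by
        rw [Finset.sum_const, Finset.card_powerset, nsmul_eq_mul, mul_pow]
        push_cast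
        rfl

/-- joint probability of separated bad causes -/
theorem bad_prob {ρ : ℝ} (hPr : P.Pr ρ) (hρ0 : 0 ≤ ρ) (hρ1 : ρ ≤ 1) (T : Finset (J ⊕ V))
    (hT : ∀ a ∈ T, ∀ b ∈ T, a ≠ b → ¬ Rq P.c a b) :
    avg (fun ω : V → Fin P.N → Bool => ind (∀ a ∈ T, P.bad ω a)) ≤ ρ ^ #T := by
  classical
  set TJ : Finset J := univ.filter fun j => Sum.inl j ∈ T with hTJ
  set TV : Finset V := univ.filter fun i => Sum.inr i ∈ T with hTV
  have hcard : #T = #TJ + #TV := by
    have : T = TJ.map Function.Embedding.inl ∪ TV.map Function.Embedding.inr := by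
      ext a
      cases a with
      | inl j => simp [hTJ]
      | inr i => simp [hTV]
    rw [this, Finset.card_union_of_disjoint, Finset.card_map, Finset.card_map]
    rw [Finset.disjoint_left]
    intro a ha hb
    simp only [Finset.mem_map, Function.Embedding.inl_apply, Function.Embedding.inr_apply] at ha hb
    obtain ⟨j, _, rfl⟩ := ha
    obtain ⟨i, _, hi⟩ := hb
    exact absurd hi (by simp)
  have hA : avg (fun ω : V → Fin P.N → Bool => ind (∀ a ∈ T, P.bad ω a))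
      ≤ (ρ ^ 2) ^ #TJ := by
    refine (avg_mono (g := fun ω : V → Fin P.N → Bool =>
      ind (∀ j ∈ TJ, (P.xs ω P.N).k j = P.K + 1)) fun ω => ?_).trans (hPr.stop TJ)
    apply ind_mono
    intro h j hj
    exact (h (Sum.inl j) (Finset.mem_filter.1 hj).2).1
  have hB : avg (fun ω : V → Fin P.N → Bool => ind (∀ a ∈ T, P.bad ω a))
      ≤ (ρ ^ 2) ^ #TV := by
    refine (avg_mono (g := fun ω : V → Fin P.N → Bool =>
      ind (∀ i ∈ TV, i ∈ P.alive (P.xs ω P.N) ∨ 8 < P.load (P.xs ω P.N).k i))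
        fun ω => ?_).trans (hPr.tv TV fun i hi i' hi' hii j => ?_)
    · apply ind_mono
      intro h i hi
      have h1 := h (Sum.inr i) (Finset.mem_filter.1 hi).2
      rcases le_or_gt (P.load (P.xs ω P.N).k i) 8 with h2 | h2
      · left
        rw [mem_alive]
        exact ⟨h1.1, h2, h1.2.2⟩
      · exact Or.inr h2
    · by_contra hcon
      push Not at hcon
      exact hT _ (Finset.mem_filter.1 hi).2 _ (Finset.mem_filter.1 hi').2
        (fun h => hii (Sum.inr_injective h)) ⟨j, hcon.1, hcon.2⟩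
  rw [← pow_mul] at hA hB
  rcases le_total #TJ #TV with h | h
  · exact hB.trans (pow_le_pow_of_le_one hρ0 hρ1 (by omega))
  · exact hA.trans (pow_le_pow_of_le_one hρ0 hρ1 (by omega))

open Classical in
/-- a long separated chain of bad causes starts at `a` -/
noncomputable def Ev (P : Par V J) (k : ℕ) (a : J ⊕ V) : Finset (V → Fin P.N → Bool) :=
  univ.filter fun ω => SepCh (Rq P.c) (P.bad ω) k a

theorem mem_Ev {k : ℕ} {a : J ⊕ V} {ω : V → Fin P.N → Bool} :
    ω ∈ P.Ev k a ↔ SepCh (Rq P.c) (P.bad ω) k a := by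
  simp [Ev]

theorem Ev_dep (k : ℕ) (a : J ⊕ V) :
    DepOn ((nb P.c)^[12 * k + P.kk] (su P.c a)) (fun ω => ω ∈ P.Ev k a) := by
  intro ω ω' h
  have key : ∀ l ∈ chains (R3 (Rq P.c)) (2 * k) a, ∀ b ∈ l, (P.bad ω b ↔ P.bad ω' b) := by
    intro l hl b hb
    apply bad_congr
    intro v hv
    apply h
    have h1 := chains3_su (2 * k) a l hl b hb
    have h2 := nbi_mono h1 P.kk hv
    rw [← Function.iterate_add_apply] at h2
    have h3 : P.kk + 6 * (2 * k) = 12 * k + P.kk := by ring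
    rw [h3] at h2
    exact h2
  simp only [eq_iff_iff, mem_Ev]
  constructor
  · rintro ⟨l, hl, h1, h2, h3⟩
    exact ⟨l, hl, h1, fun b hb => (key l hl b hb).1 (h2 b hb), h3⟩
  · rintro ⟨l, hl, h1, h2, h3⟩
    exact ⟨l, hl, h1, fun b hb => (key l hl b hb).2 (h2 b hb), h3⟩

variable (hP : P.Ok)
  (hD : ∀ j, #(univ.filter fun l => ∃ i, P.c j i ≠ 0 ∧ P.c l i ≠ 0) ≤ P.D)
include hP hD

theorem avg_Ev (hPr : P.Pr (1 / (2 * (P.D : ℝ)) ^ 64)) (k : ℕ) (a : J ⊕ V) :
    avg (fun ω : V → Fin P.N → Bool => ind (ω ∈ P.Ev k a))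
      ≤ (2 * (P.D : ℝ)) ^ (12 * k) * (1 / (2 * (P.D : ℝ)) ^ 64) ^ (k + 1) := by
  classical
  have hD1 := hP.hD1
  have hDr : (1 : ℝ) ≤ P.D := by exact_mod_cast hD1
  set X : ℝ := 2 * (P.D : ℝ) with hX
  have hX2 : 2 ≤ X := by rw [hX]; linarith
  have hX0 : 0 < X := by linarith
  set ρ : ℝ := 1 / X ^ 64 with hρ
  have hρ0 : 0 ≤ ρ := by positivity
  have hρ1 : ρ ≤ 1 := by
    rw [hρ, div_le_one (by positivity)]; exact one_le_pow₀ (by linarith)
  set CH : Finset (List (J ⊕ V)) := (chains (R3 (Rq P.c)) (2 * k) a).filter fun l =>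
    k + 1 ≤ #l.toFinset ∧ ∀ b ∈ l, ∀ b' ∈ l, b ≠ b' → ¬ Rq P.c b b' with hCH
  have hpt : ∀ ω : V → Fin P.N → Bool, ind (ω ∈ P.Ev k a)
      ≤ ∑ l ∈ CH, ind (∀ b ∈ l.toFinset, P.bad ω b) := by
    intro ω
    by_cases h : ω ∈ P.Ev k a
    · obtain ⟨l, hl, h3, h4, h5⟩ := mem_Ev.1 h
      have h6 : l ∈ CH := Finset.mem_filter.2 ⟨hl, le_trans h3 (le_of_eq
        (congrArg Finset.card (Finset.ext fun x => by simp only [List.mem_toFinset]))), h5⟩
      rw [ind_true h]
      have h7 : ind (∀ b ∈ l.toFinset, P.bad ω b) = 1 :=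
        ind_true fun b hb => h4 b (List.mem_toFinset.1 hb)
      rw [← h7]
      exact Finset.single_le_sum
            (f := fun l : List (J ⊕ V) => ind (∀ b ∈ l.toFinset, P.bad ω b))
            (fun l _ => ind_nonneg _) h6
    · rw [ind_false h]
      exact Finset.sum_nonneg fun l _ => ind_nonneg _
  have hcard : (#CH : ℝ) ≤ X ^ (12 * k) := by
    have h3 : #CH ≤ ((1 + 2 * P.D ^ 2) ^ 3) ^ (2 * k) := by
      refine (Finset.card_filter_le _ _).trans ?_
      exact card_chains _ (fun b => card_R3 (fun b => card_Rq hP.hrow hP.hcol hD b) b) _ _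
    have h4 : (#CH : ℝ) ≤ ((1 + 2 * (P.D : ℝ) ^ 2) ^ 3) ^ (2 * k) := by exact_mod_cast h3
    refine h4.trans ?_
    rw [show 12 * k = 2 * (3 * (2 * k)) by ring, pow_mul X, ← pow_mul]
    apply pow_le_pow_left₀ (by positivity)
    rw [hX]; nlinarith
  have hone : ∀ l ∈ CH, avg (fun ω : V → Fin P.N → Bool =>
      ind (∀ b ∈ l.toFinset, P.bad ω b)) ≤ ρ ^ (k + 1) := by
    intro l hl
    obtain ⟨h1, h2⟩ := (Finset.mem_filter.1 hl).2
    have h3 := bad_prob hPr hρ0 hρ1 l.toFinset (fun b hb b' hb' hne =>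
      h2 b (List.mem_toFinset.1 hb) b' (List.mem_toFinset.1 hb') hne)
    exact h3.trans (pow_le_pow_of_le_one hρ0 hρ1 h1)
  have s1 := avg_mono hpt
  rw [avg_sum] at s1
  have s2 := Finset.sum_le_sum hone
  have s3 : ∑ _l ∈ CH, ρ ^ (k + 1) = #CH * ρ ^ (k + 1) := by
    rw [Finset.sum_const, nsmul_eq_mul]
  have s4 : (#CH : ℝ) * ρ ^ (k + 1) ≤ X ^ (12 * k) * ρ ^ (k + 1) :=
    mul_le_mul_of_nonneg_right hcard (by positivity)
  exact s1.trans (s2.trans (s3.le.trans s4))

theorem card_Ev (hPr : P.Pr (1 / (2 * (P.D : ℝ)) ^ 64)) (a : J ⊕ V) :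
    4 * (2 * P.D) ^ (52 * P.kk + 2) * #(P.Ev P.kk a) ≤ Fintype.card (V → Fin P.N → Bool) := by
  classical
  have hD1 := hP.hD1
  have hDr : (1 : ℝ) ≤ P.D := by exact_mod_cast hD1
  have havg := avg_Ev hP hD hPr P.kk a
  set X : ℝ := 2 * (P.D : ℝ) with hX
  have hX2 : 2 ≤ X := by rw [hX]; linarith
  have hX0 : 0 < X := by linarith
  set ρ : ℝ := 1 / X ^ 64 with hρ
  set k := P.kk with hk
  have havg2 : avg (fun ω : V → Fin P.N → Bool => ind (ω ∈ P.Ev k a))
      = (#(P.Ev k a) : ℝ) / Fintype.card (V → Fin P.N → Bool) := avg_ind_mem _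
  rw [havg2] at havg
  have hΩ : (0 : ℝ) < Fintype.card (V → Fin P.N → Bool) := by exact_mod_cast Fintype.card_pos
  rw [div_le_iff₀ hΩ] at havg
  have hfin : 4 * X ^ (52 * k + 2) * (X ^ (12 * k) * ρ ^ (k + 1)) ≤ 1 := by
    have e1 : ρ ^ (k + 1) = 1 / X ^ (64 * (k + 1)) := by
      rw [hρ, div_pow, one_pow, ← pow_mul]
    rw [e1]
    have e2 : 4 * X ^ (52 * k + 2) * (X ^ (12 * k) * (1 / X ^ (64 * (k + 1))))
        = (4 * (X ^ (52 * k + 2) * X ^ (12 * k))) / X ^ (64 * (k + 1)) := by ring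
    rw [e2, div_le_one (by positivity), ← pow_add]
    calc 4 * X ^ (52 * k + 2 + 12 * k) ≤ X ^ 2 * X ^ (52 * k + 2 + 12 * k) := by
          apply mul_le_mul_of_nonneg_right _ (by positivity)
          nlinarith
      _ = X ^ (2 + (52 * k + 2 + 12 * k)) := by rw [← pow_add]
      _ ≤ X ^ (64 * (k + 1)) := pow_le_pow_right₀ (by linarith) (by omega)
  have hreal : (4 * (2 * (P.D : ℝ)) ^ (52 * k + 2)) * #(P.Ev k a)
      ≤ Fintype.card (V → Fin P.N → Bool) := by
    rw [← hX]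
    calc (4 * X ^ (52 * k + 2)) * #(P.Ev k a)
        ≤ (4 * X ^ (52 * k + 2)) * ((X ^ (12 * k) * ρ ^ (k + 1)) *
            Fintype.card (V → Fin P.N → Bool)) :=
          mul_le_mul_of_nonneg_left havg (by positivity)
      _ = (4 * X ^ (52 * k + 2) * (X ^ (12 * k) * ρ ^ (k + 1))) *
            Fintype.card (V → Fin P.N → Bool) := by ring
      _ ≤ 1 * Fintype.card (V → Fin P.N → Bool) := mul_le_mul_of_nonneg_right hfin hΩ.le
      _ = _ := one_mul _
  exact_mod_cast hreal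

omit hD in
theorem card_overlap (R : ℕ) (a : J ⊕ V) :
    #(univ.filter fun a' => ¬ Disjoint ((nb P.c)^[R] (su P.c a))
      ((nb P.c)^[R] (su P.c a'))) ≤ (2 * P.D) ^ (4 * R + 2) := by
  classical
  have hD1 := hP.hD1
  have hsub : (univ.filter fun a' => ¬ Disjoint ((nb P.c)^[R] (su P.c a))
      ((nb P.c)^[R] (su P.c a'))) ⊆ ((nb P.c)^[2 * R] (su P.c a)).biUnion (fun i =>
        insert (Sum.inr i) ((univ.filter fun j => P.c j i ≠ 0).map Function.Embedding.inl)) := by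
    intro a' ha'
    obtain ⟨i, hi, hi2⟩ := nbi_overlap (Finset.mem_filter.1 ha').2
    rw [Finset.mem_biUnion]
    refine ⟨i, hi2, ?_⟩
    cases a' with
    | inl j =>
      have h1 : P.c j i ≠ 0 := by simpa [su] using hi
      apply Finset.mem_insert_of_mem
      simpa using h1
    | inr i' =>
      have h1 : i = i' := by simpa [su] using hi
      rw [h1]
      exact Finset.mem_insert_self _ _
  have hsu : #(su P.c a) ≤ P.D := by
    cases a with
    | inl j =>
      refine le_trans (Finset.card_le_card fun i hi => ?_) (hP.hrow j)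
      exact Finset.mem_filter.2 ⟨Finset.mem_univ _, by simpa [su] using hi⟩
    | inr i => simpa [su] using hD1
  calc _ ≤ _ := Finset.card_le_card hsub
    _ ≤ ∑ i ∈ (nb P.c)^[2 * R] (su P.c a), #(insert (Sum.inr i)
          ((univ.filter fun j => P.c j i ≠ 0).map Function.Embedding.inl) : Finset (J ⊕ V)) :=
        Finset.card_biUnion_le
    _ ≤ ∑ _i ∈ (nb P.c)^[2 * R] (su P.c a), (1 + P.D) := by
        refine Finset.sum_le_sum fun i _ => ?_
        refine (Finset.card_insert_le _ _).trans ?_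
        rw [Finset.card_map, add_comm]
        exact Nat.add_le_add_left (hP.hcol i) 1
    _ = #((nb P.c)^[2 * R] (su P.c a)) * (1 + P.D) := by simp
    _ ≤ ((1 + P.D ^ 2) ^ (2 * R) * P.D) * (1 + P.D) := by
        apply Nat.mul_le_mul_right
        exact (card_nbi_le hP.hrow hP.hcol _ _).trans (Nat.mul_le_mul_left _ hsu)
    _ ≤ (((2 * P.D) ^ 2) ^ (2 * R)) * (2 * P.D) ^ 2 := by
        rw [mul_assoc]
        apply Nat.mul_le_mul
        · apply Nat.pow_le_pow_left
          nlinarith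
        · nlinarith
    _ = _ := by
        rw [← pow_mul, ← pow_add]
        congr 1
        ring

/-- relation between bad causes -/
def br (P : Par V J) (ω : V → Fin P.N → Bool) (a b : J ⊕ V) : Prop :=
  P.bad ω a ∧ P.bad ω b ∧ Rq P.c a b

omit hP hD in
theorem br_symm (ω : V → Fin P.N → Bool) (a b : J ⊕ V) (h : P.br ω a b) : P.br ω b a :=
  ⟨h.2.1, h.1, h.2.2.symm⟩

omit hP in
theorem cl_le (hP : P.Ok) {k : ℕ} {ω : V → Fin P.N → Bool} (h : ∀ a, ω ∉ P.Ev k a) (a : J ⊕ V)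
    (ha : P.bad ω a) : #(cl (P.br ω) a) ≤ (1 + 2 * P.D ^ 2) * k :=
  cl_le_of_no_chain (fun a b h => h.symm) (fun b => card_Rq hP.hrow hP.hcol hD b) (P.bad ω) k
    (fun a h' => h a (mem_Ev.2 h')) a ha

/-- good point of the probability space, local version -/
theorem good_lll (hPr : P.Pr (1 / (2 * (P.D : ℝ)) ^ 64)) :
    ∃ ω : V → Fin P.N → Bool, ∀ a, P.bad ω a → #(cl (P.br ω) a) ≤ (1 + 2 * P.D ^ 2) * P.kk := by
  classical
  have hD1 := hP.hD1
  obtain ⟨ω, hω⟩ := lll (V := V) (α := Fin P.N → Bool) (P.Ev P.kk)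
    (fun a => (nb P.c)^[12 * P.kk + P.kk] (su P.c a)) (Ev_dep P.kk)
    ((2 * P.D) ^ (52 * P.kk + 2)) (by positivity) (fun a => card_Ev hP hD hPr a)
    (fun a => by
      have := card_overlap hP (12 * P.kk + P.kk) a
      rw [show 4 * (12 * P.kk + P.kk) + 2 = 52 * P.kk + 2 by ring] at this
      exact this)
  exact ⟨ω, fun a ha => cl_le hD hP hω a ha⟩

/-- good point of the probability space, union bound -/
theorem good_union (hPr : P.Pr (1 / (2 * (P.D : ℝ)) ^ 64)) (k M : ℕ)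
    (hM : #(touched P.c P.z) ≤ M) (hMk : M * (1 + P.D) < (2 * P.D) ^ (52 * k + 64)) :
    ∃ ω : V → Fin P.N → Bool, ∀ a, P.bad ω a → #(cl (P.br ω) a) ≤ (1 + 2 * P.D ^ 2) * k := by
  classical
  have hD1 := hP.hD1
  have hDr : (1 : ℝ) ≤ P.D := by exact_mod_cast hD1
  set HD : Finset (J ⊕ V) := (touched P.c P.z).biUnion fun j =>
    insert (Sum.inl j) ((univ.filter fun i => P.c j i ≠ 0).map Function.Embedding.inr) with hHD
  have hHDc : #HD ≤ M * (1 + P.D) := by
    calc #HD ≤ ∑ j ∈ touched P.c P.z, #(insert (Sum.inl j)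
          ((univ.filter fun i => P.c j i ≠ 0).map Function.Embedding.inr) : Finset (J ⊕ V)) :=
          Finset.card_biUnion_le
      _ ≤ ∑ _j ∈ touched P.c P.z, (1 + P.D) := by
          refine Finset.sum_le_sum fun j _ => ?_
          refine (Finset.card_insert_le _ _).trans ?_
          rw [Finset.card_map, add_comm]
          exact Nat.add_le_add_left (hP.hrow j) 1
      _ = #(touched P.c P.z) * (1 + P.D) := by simp
      _ ≤ _ := Nat.mul_le_mul_right _ hM
  have hheads : ∀ ω a, P.bad ω a → a ∈ HD := by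
    intro ω a ha
    cases a with
    | inl j =>
      obtain ⟨h1, i, hi⟩ := ha
      have h2 : ∃ i, P.c j i ≠ 0 ∧ |P.z i| ≠ 1 := by
        by_contra hcon
        push Not at hcon
        have := (k_fixed hP hcon ω P.N).1
        omega
      obtain ⟨i', h3, h4⟩ := h2
      rw [hHD, Finset.mem_biUnion]
      refine ⟨j, ?_, Finset.mem_insert_self _ _⟩
      simp only [touched, Finset.mem_filter, Finset.mem_univ, true_and]
      exact ⟨i', h3, lt_of_le_of_ne (hP.hz i') h4⟩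
    | inr i =>
      obtain ⟨h1, ⟨j, hj⟩, h3⟩ := ha
      have h2 : |P.z i| < 1 := by
        apply lt_of_le_of_ne (hP.hz i)
        intro h4
        rw [x_fixed hP h4, h4] at h1
        have hδ : 0 < P.δ := lt_of_lt_of_le (mul_pos hP.hγ (by have := U_pos hP; positivity)) hP.hδ
        linarith
      rw [hHD, Finset.mem_biUnion]
      refine ⟨j, ?_, Finset.mem_insert_of_mem (by simpa using hj)⟩
      simp only [touched, Finset.mem_filter, Finset.mem_univ, true_and]
      exact ⟨i, hj, h2⟩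
  have hex : ∃ ω : V → Fin P.N → Bool, ∀ a ∈ HD, ω ∉ P.Ev k a := by
    by_contra hcon
    push Not at hcon
    have h1 : (1 : ℝ) ≤ avg (fun ω : V → Fin P.N → Bool => ∑ a ∈ HD, ind (ω ∈ P.Ev k a)) := by
      have : avg (fun _ : V → Fin P.N → Bool => (1 : ℝ)) ≤
          avg (fun ω : V → Fin P.N → Bool => ∑ a ∈ HD, ind (ω ∈ P.Ev k a)) := by
        apply avg_mono
        intro ω
        obtain ⟨a, ha, ha2⟩ := hcon ω
        have h7 : ind (ω ∈ P.Ev k a) = 1 := ind_true ha2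
        rw [← h7]
        exact Finset.single_le_sum (f := fun a => ind (ω ∈ P.Ev k a)) (fun a _ => ind_nonneg _) ha
      rwa [avg_const] at this
    rw [avg_sum] at h1
    have h2 : ∑ a ∈ HD, avg (fun ω : V → Fin P.N → Bool => ind (ω ∈ P.Ev k a))
        ≤ #HD * ((2 * (P.D : ℝ)) ^ (12 * k) * (1 / (2 * (P.D : ℝ)) ^ 64) ^ (k + 1)) := by
      calc _ ≤ ∑ _a ∈ HD, (2 * (P.D : ℝ)) ^ (12 * k) * (1 / (2 * (P.D : ℝ)) ^ 64) ^ (k + 1) :=
            Finset.sum_le_sum fun a _ => avg_Ev hP hD hPr k a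
        _ = _ := by rw [Finset.sum_const, nsmul_eq_mul]
    set X : ℝ := 2 * (P.D : ℝ) with hX
    have hX2 : 2 ≤ X := by rw [hX]; linarith
    have hX0 : 0 < X := by linarith
    have h3 : (#HD : ℝ) < X ^ (52 * k + 64) := by
      have := lt_of_le_of_lt hHDc hMk
      rw [hX]
      exact_mod_cast this
    have h4 : (#HD : ℝ) * (X ^ (12 * k) * (1 / X ^ 64) ^ (k + 1)) < 1 := by
      have e1 : X ^ (12 * k) * (1 / X ^ 64) ^ (k + 1) = 1 / X ^ (52 * k + 64) := by
        rw [div_pow, one_pow, ← pow_mul, mul_one_div, div_eq_div_iff (by positivity)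
          (by positivity), one_mul, ← pow_add]
        congr 1
        ring
      rw [e1, mul_one_div, div_lt_one (by positivity)]
      exact h3
    linarith
  obtain ⟨ω, hω⟩ := hex
  refine ⟨ω, fun a ha => cl_le hD hP (k := k) (fun a ha' => ?_) a ha⟩
  by_cases h : a ∈ HD
  · exact hω a h ha'
  · obtain ⟨l, hl, h3, h4, h5⟩ := mem_Ev.1 ha'
    apply h
    apply hheads ω
    apply h4
    -- the head of a chain
    have : ∀ n, ∀ l ∈ chains (R3 (Rq P.c)) n a, a ∈ l := by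
      intro n l hl
      cases n with
      | zero =>
        have : l = [a] := by simpa [chains] using hl
        rw [this]; exact List.mem_singleton.2 rfl
      | succ n =>
        simp only [chains, Finset.mem_biUnion, Finset.mem_filter, Finset.mem_univ, true_and,
          Finset.mem_image] at hl
        obtain ⟨a', ha', l', hl', rfl⟩ := hl
        exact List.mem_cons_self
    exact this _ l hl

end Par

end Pool.Agent.Helper26.Bg
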