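import Mathlib

namespace Pool.Agent.Helper26.Bg

open Real

theorem sqrt2_lt : (7 : ℝ) / 5 < √2 := by
  rw [Real.lt_sqrt (by norm_num)]; norm_num

theorem sqrt2_sq : √2 ^ 2 = (2 : ℝ) := Real.sq_sqrt (by norm_num)

theorem abs_sinh_lt (b : ℝ) : |sinh b| < cosh b := by
  rw [abs_lt]
  constructor
  · have h1 : sinh b = (exp b - exp (-b)) / 2 := sinh_eq b
    have h2 : cosh b = (exp b + exp (-b)) / 2 := cosh_eq b
    rw [h1, h2]
    have := exp_pos b
    linarith
  · exact sinh_lt_cosh b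

/-- affine factor (times the square root of two) -/
noncomputable def Aa (x b : ℝ) : ℝ := √2 * cosh b + x * sinh b

theorem Aa_pos {x : ℝ} (hx : |x| ≤ 1) (b : ℝ) : 2 / 5 * |sinh b| < Aa x b := by
  have h1 := abs_sinh_lt b
  have h2 := sqrt2_lt
  have h3 : |x * sinh b| ≤ |sinh b| := by
    rw [abs_mul]
    exact mul_le_of_le_one_left (abs_nonneg _) hx
  have h4 := neg_abs_le (x * sinh b)
  have h5 := abs_nonneg (sinh b)
  unfold Aa
  nlinarith

theorem Aa_pos' {x : ℝ} (hx : |x| ≤ 1) (b : ℝ) : 0 < Aa x b := by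
  have := Aa_pos hx b
  have h2 := abs_nonneg (sinh b)
  linarith

/-- log Laplace transform of a two point law -/
noncomputable def Ft (x α : ℝ) : ℝ := log (Aa x (√2 * α) / √2) - α * x

/-- slope -/
noncomputable def ss (x α : ℝ) : ℝ := sinh (√2 * α) / Aa x (√2 * α)

theorem Ft_zero (x : ℝ) : Ft x 0 = 0 := by
  unfold Ft Aa
  have : √2 ≠ (0 : ℝ) := by positivity
  simp [this]

theorem Ft_nonneg {x : ℝ} (hx : |x| ≤ 1) (α : ℝ) : 0 ≤ Ft x α := by
  unfold Ft
  rw [sub_nonneg]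
  have hA := Aa_pos' hx (√2 * α)
  have h2 := sqrt2_lt
  have hs : (0 : ℝ) < √2 := by positivity
  rw [Real.le_log_iff_exp_le (by positivity)]
  have hx' := abs_le.1 hx
  set p : ℝ := (1 + x / √2) / 2 with hp
  set q : ℝ := (1 - x / √2) / 2 with hq
  have hxs : |x / √2| ≤ 1 := by
    rw [abs_div, abs_of_pos hs, div_le_one hs]
    linarith
  have hxs' := abs_le.1 hxs
  have hp0 : 0 ≤ p := by rw [hp]; linarith
  have hq0 : 0 ≤ q := by rw [hq]; linarith
  have hpq : p + q = 1 := by rw [hp, hq]; ring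
  have hc := convexOn_exp.2 (Set.mem_univ (√2 * α)) (Set.mem_univ (-(√2 * α))) hp0 hq0 hpq
  simp only [smul_eq_mul] at hc
  have e1 : p * (√2 * α) + q * (-(√2 * α)) = α * x := by
    rw [hp, hq]; field_simp; ring
  have e2 : p * exp (√2 * α) + q * exp (-(√2 * α)) = Aa x (√2 * α) / √2 := by
    unfold Aa
    rw [cosh_eq, sinh_eq, hp, hq]
    field_simp
    ring
  rw [e1, e2] at hc
  exact hc

theorem abs_ss_le {x : ℝ} (hx : |x| ≤ 1) (α : ℝ) : |ss x α| ≤ 5 / 2 := by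
  unfold ss
  have h1 := Aa_pos hx (√2 * α)
  have h2 := Aa_pos' hx (√2 * α)
  rw [abs_div, abs_of_pos h2, div_le_iff₀ h2]
  linarith

theorem hasDerivAt_Ft {x : ℝ} (hx : |x| ≤ 1) (α : ℝ) :
    HasDerivAt (Ft x) ((2 - x ^ 2) * ss x α) α := by
  have hA := Aa_pos' hx (√2 * α)
  have hs : (0 : ℝ) < √2 := by positivity
  have h1 : HasDerivAt (fun a : ℝ => √2 * a) √2 α := by
    simpa using (hasDerivAt_id α).const_mul √2
  have h2 : HasDerivAt (fun a : ℝ => Aa x (√2 * a))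
      (√2 * (sinh (√2 * α) * √2) + x * (cosh (√2 * α) * √2)) α := by
    unfold Aa
    exact (h1.cosh.const_mul √2).add (h1.sinh.const_mul x)
  have h3 : HasDerivAt (fun a : ℝ => Aa x (√2 * a) / √2)
      ((√2 * (sinh (√2 * α) * √2) + x * (cosh (√2 * α) * √2)) / √2) α := h2.div_const _
  have h4 := h3.log (by positivity)
  have h5 := h4.sub ((hasDerivAt_id α).mul_const x)
  refine h5.congr_deriv ?_
  unfold ss
  have hne : Aa x (√2 * α) ≠ 0 := hA.ne'
  have hsq := sqrt2_sq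
  rw [div_div_div_cancel_right₀ hs.ne', one_mul, sub_eq_iff_eq_add, ← mul_div_assoc, div_add' _ _ _ hne,
    div_left_inj' hne]
  unfold Aa
  linear_combination (sinh (√2 * α)) * hsq

theorem continuous_Ft {x : ℝ} (hx : |x| ≤ 1) : Continuous (Ft x) :=
  continuous_iff_continuousAt.2 fun α => (hasDerivAt_Ft hx α).continuousAt

theorem Ft_sub {x x' : ℝ} (hx : |x| ≤ 1) (hx' : |x'| ≤ 1) (α : ℝ) :
    Ft x' α - Ft x α = log (1 + ss x α * (x' - x)) - α * (x' - x) := by
  have hA := Aa_pos' hx (√2 * α)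
  have hA' := Aa_pos' hx' (√2 * α)
  have hs : (0 : ℝ) < √2 := by positivity
  have e1 : 1 + ss x α * (x' - x) = (Aa x' (√2 * α) / √2) / (Aa x (√2 * α) / √2) := by
    unfold ss
    rw [div_div_div_cancel_right₀ hs.ne']
    rw [eq_div_iff hA.ne', add_mul, one_mul, div_mul_eq_mul_div, div_mul_cancel₀ _ hA.ne']
    unfold Aa
    ring
  rw [e1, log_div (by positivity) (by positivity)]
  unfold Ft
  ring

theorem log_one_add_le {z : ℝ} (hz : |z| ≤ 1 / 2) : log (1 + z) ≤ z - z ^ 2 / 2 + 2 * |z| ^ 3 := by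
  have h := Real.abs_log_sub_add_sum_range_le (x := -z) (by rw [abs_neg]; linarith) 2
  rw [abs_neg] at h
  have h1 : |z| ^ (2 + 1) / (1 - |z|) ≤ 2 * |z| ^ 3 := by
    rw [div_le_iff₀ (by linarith)]
    have h0 : 0 ≤ |z| ^ 3 := by positivity
    calc |z| ^ (2 + 1) = |z| ^ 3 * 1 := by rw [mul_one]
      _ ≤ |z| ^ 3 * (2 * (1 - |z|)) := mul_le_mul_of_nonneg_left (by linarith) h0
      _ = _ := by ring
  have h2 := (abs_le.1 (h.trans h1)).2
  simp only [Finset.sum_range_succ, Finset.sum_range_zero, sub_neg_eq_add] at h2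
  push_cast at h2
  norm_num at h2
  linarith

/-- the increment of the function along a small move -/
theorem Ft_inc {x x' : ℝ} (hx : |x| ≤ 1) (hx' : |x'| ≤ 1) (α : ℝ) (hd : |x' - x| ≤ 1 / 5) :
    Ft x' α ≤ Ft x α + ((ss x α - α) * (x' - x) - (ss x α * (x' - x)) ^ 2 / 2
      + 2 * |ss x α * (x' - x)| ^ 3) := by
  have h1 := Ft_sub hx hx' α
  have h2 : |ss x α * (x' - x)| ≤ 1 / 2 := by
    rw [abs_mul]
    calc |ss x α| * |x' - x| ≤ 5 / 2 * (1 / 5) :=
          mul_le_mul (abs_ss_le hx α) hd (abs_nonneg _) (by norm_num)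
      _ = 1 / 2 := by norm_num
  have h3 := log_one_add_le h2
  linarith

end Pool.Agent.Helper26.Bg
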