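import Pool.Agent.Helper26.Bg.Pot

set_option linter.unusedSectionVars false

namespace Pool.Agent.Helper26.Bg

open Finset Real
open Pool.Agent.Helper26.Bf
open Pool.Agent.Helper26.Loc (ee ee_self sum_ee_mul sum_mul_ee avg avg_mul_left avg_mul_right
  avg_mono avg_const avg_sum avg_slice sgb abs_sgb setSlice)
open Pool.Agent.Helper26.Gsw (dev)

/-- square inequality for a change of slope and weight -/
theorem sq_change {A B w l : ℝ} (hw : 0 < w) (hB : |B| ≤ 5 * l) :
    (A + B) ^ 2 / (4 * w) ≤ A ^ 2 / w + 25 / 3 * l ^ 2 / w := by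
  have h1 : B ^ 2 ≤ 25 * l ^ 2 := by
    rw [← sq_abs]
    calc |B| ^ 2 ≤ (5 * l) ^ 2 := pow_le_pow_left₀ (abs_nonneg _) hB 2
      _ = 25 * l ^ 2 := by ring
  rw [← add_div, div_le_div_iff₀ (by positivity) hw]
  have h2 : (A + B) ^ 2 ≤ 4 * (A ^ 2 + 25 / 3 * l ^ 2) := by
    nlinarith [sq_nonneg (3 * A - B)]
  calc (A + B) ^ 2 * w ≤ 4 * (A ^ 2 + 25 / 3 * l ^ 2) * w := mul_le_mul_of_nonneg_right h2 hw.le
    _ = _ := by ring

namespace Par

variable {V J : Type*} [Fintype V] [DecidableEq V] [Fintype J] [DecidableEq J]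

/-- sign of the deviation from the anchor -/
noncomputable def sd (P : Par V J) (st : St V J) (x' : V → ℝ) (j : J) : Bool :=
  if 0 ≤ dev P.c P.z j x' - st.s j then true else false

theorem vl_sd (P : Par V J) (st : St V J) (x' : V → ℝ) (j : J) :
    vl (some (P.sd st x' j)) * (dev P.c P.z j x' - st.s j) = |dev P.c P.z j x' - st.s j| := by
  unfold sd
  split_ifs with h
  · rw [abs_of_nonneg h]; simp [vl]
  · rw [abs_of_neg (not_le.1 h)]; simp [vl]

open Classical in
/-- old sign choice attached to a new one -/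
noncomputable def tau (P : Par V J) (st : St V J) (x' : V → ℝ) (j : J) (s : Option Bool) :
    Option Bool :=
  if P.Up st x' j then s.map (fun _ => P.sd st x' j) else s

open Classical in
/-- weight of the merging -/
noncomputable def hj (P : Par V J) (st : St V J) (x' : V → ℝ) (j : J) : Option Bool → ℝ
  | none => 1
  | some _ => if P.Up st x' j then 1 / 2 else 1

theorem hj_nonneg (P : Par V J) (st : St V J) (x' : V → ℝ) (j : J) (s : Option Bool) :
    0 ≤ P.hj st x' j s := by
  cases s with
  | none => exact zero_le_one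
  | some b => unfold hj; dsimp only; split_ifs <;> norm_num

theorem hj_sum (P : Par V J) (st : St V J) (x' : V → ℝ) (j : J) (s : Option Bool) :
    ∑ s', (if P.tau st x' j s' = s then P.hj st x' j s' else 0) ≤ 1 := by
  rw [Fintype.sum_option, Fintype.sum_bool]
  by_cases h : P.Up st x' j
  · simp only [tau, hj, if_pos h, Option.map_none, Option.map_some]
    cases s with
    | none => simp
    | some b =>
      by_cases hb : P.sd st x' j = b
      · simp only [hb, if_true, reduceCtorEq, if_false]; norm_num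
      · simp [hb]
  · simp only [tau, hj, if_neg h]
    cases s with
    | none => simp
    | some b => cases b <;> simp

variable {P : Par V J} (hP : P.Ok)
include hP

/-- correction of a row -/
theorem level_step {m : J → ℝ} (hm : ∀ j, 0 ≤ m j) (hmth : ∀ j, m j ≤ P.th) {st : St V J}
    (hI : P.Inv st) {ξ : V → ℝ} (hξ : ∀ i, |ξ i| ≤ 1) (σ' : J → Option Bool) :
    P.Gw m (P.step st ξ) σ' * exp (P.Ps (P.step st ξ) σ')
      ≤ (∏ j, P.hj st (P.nx st ξ) j (σ' j)) *
        (P.Gw m st (fun j => P.tau st (P.nx st ξ) j (σ' j)) *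
          exp (P.Pm st (P.nx st ξ) (fun j => P.tau st (P.nx st ξ) j (σ' j)))) := by
  classical
  have hth := hP.hth
  set x' := P.nx st ξ with hx'
  set st' := P.step st ξ with hst'
  set σ : J → Option Bool := fun j => P.tau st x' j (σ' j) with hσ
  have hw0 : ∀ j, 0 < P.wt st.k j := P.wt_pos st.k
  have hw0' : ∀ j, 0 < P.wt st'.k j := P.wt_pos st'.k
  have hxx : ∀ i, |x' i| ≤ 1 := abs_nx_le hP hI hξ
  set u := um P.c (P.alive st) st.x (P.wt st.k) (P.lv st σ) with hu
  -- correction terms
  set η : J → ℝ := fun j => if P.Up st x' j ∧ σ' j ≠ none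
    then 25 / 3 * P.lm (st.k j) ^ 2 / P.wt st.k j else 0 with hη
  set ρ : J → ℝ := fun j => if P.Up st x' j ∧ σ' j ≠ none
    then P.lm (st.k j) * |dev P.c P.z j x' - st.s j| else 0 with hρ
  have hk_up : ∀ j, P.Up st x' j → st'.k j = st.k j + 1 := fun j h => step_k_of_up h
  have hk_nup : ∀ j, ¬ P.Up st x' j → st'.k j = st.k j := fun j h => step_k_of_not_up h
  have hs_up : ∀ j, P.Up st x' j → st'.s j = dev P.c P.z j x' := fun j h => step_s_of_up h
  have hs_nup : ∀ j, ¬ P.Up st x' j → st'.s j = st.s j := fun j h => step_s_of_not_up h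
  have hxs : st'.x = x' := rfl
  have hlin : ∑ j, P.lv st' σ' j * (dev P.c P.z j st'.x - st'.s j)
      = ∑ j, P.lv st σ j * (dev P.c P.z j x' - st.s j) - ∑ j, ρ j := by
    rw [← Finset.sum_sub_distrib]
    refine Finset.sum_congr rfl fun j _ => ?_
    rw [hxs]
    by_cases h : P.Up st x' j
    · rw [hs_up j h, sub_self, mul_zero]
      unfold lv
      simp only [hσ, hρ, tau, if_pos h]
      cases hs : σ' j with
      | none => simp [vl]
      | some b =>
        simp only [Option.map_some, h, ne_eq, reduceCtorEq, not_false_eq_true, and_self, if_true]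
        have := P.vl_sd st x' j
        rw [mul_comm (vl _) (P.lm _), mul_assoc, this]
        ring
    · rw [hs_nup j h]
      unfold lv
      rw [hk_nup j h]
      simp only [hσ, hρ, tau, if_neg h, h, false_and, if_false, sub_zero]
  have hq : qm P.c (P.alive st') x' (P.wt st'.k) (P.lv st' σ')
      ≤ NN P.c (P.alive st) x' (P.wt st.k) (P.lv st σ) u + 4624 * ∑ j, η j := by
    apply qm_update hw0' (fun i _ => hxx i) (alive_step_subset st ξ)
    intro j
    by_cases h : P.Up st x' j
    · have hk := hk_up j h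
      have hwj : P.wt st'.k j = 4 * P.wt st.k j := by
        unfold wt; rw [hk, pow_succ]; ring
      rw [hwj]
      cases hs : σ' j with
      | none =>
        have e1 : P.lv st' σ' j = 0 := by unfold lv; rw [hs]; simp [vl]
        have e2 : P.lv st σ j = 0 := by
          unfold lv
          simp only [hσ, tau, if_pos h, hs, Option.map_none]
          simp [vl]
        have e3 : η j = 0 := by simp [hη, hs]
        rw [e1, e2, e3, add_zero]
        apply div_le_div_of_nonneg_left (sq_nonneg _) (hw0 j)
        have := hw0 j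
        linarith
      | some b =>
        have e3 : η j = 25 / 3 * P.lm (st.k j) ^ 2 / P.wt st.k j := by
          simp only [hη]
          rw [if_pos ⟨h, by rw [hs]; simp⟩]
        rw [e3]
        have e4 : P.lv st' σ' j - u j = (P.lv st σ j - u j) + (P.lv st' σ' j - P.lv st σ j) := by
          ring
        rw [e4]
        apply sq_change (hw0 j)
        have h1 : |P.lv st' σ' j| ≤ P.lm (st.k j + 1) := by
          unfold lv
          rw [hk, abs_mul, abs_of_nonneg (P.lm_nonneg _)]
          exact mul_le_of_le_one_left (P.lm_nonneg _) (abs_vl_le _)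
        have h2 : |P.lv st σ j| ≤ P.lm (st.k j) := by
          unfold lv
          rw [abs_mul, abs_of_nonneg (P.lm_nonneg _)]
          exact mul_le_of_le_one_left (P.lm_nonneg _) (abs_vl_le _)
        have h3 := P.lm_succ hth (st.k j)
        have h4 := abs_sub (P.lv st' σ' j) (P.lv st σ j)
        linarith
    · have hk := hk_nup j h
      have hwj : P.wt st'.k j = P.wt st.k j := by unfold wt; rw [hk]
      have e3 : η j = 0 := by simp [hη, h]
      have e4 : P.lv st' σ' j = P.lv st σ j := by
        unfold lv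
        rw [hk]
        simp only [hσ, tau, if_neg h]
      rw [hwj, e3, e4, add_zero]
  have hexp : P.Ps st' σ' ≤ P.Pm st x' σ + ∑ j, (4624 * η j - ρ j) := by
    unfold Ps Pm
    rw [hlin, hxs, ← hu, Finset.sum_sub_distrib, ← Finset.mul_sum]
    linarith
  have hrow : ∀ j, gg (m j * P.wt st'.k j) (σ' j) * exp (4624 * η j - ρ j)
      ≤ P.hj st x' j (σ' j) * gg (m j * P.wt st.k j) (σ j) := by
    intro j
    by_cases h : P.Up st x' j
    · have hk := hk_up j h
      have hwj : P.wt st'.k j = 4 * P.wt st.k j := by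
        unfold wt; rw [hk, pow_succ]; ring
      cases hs : σ' j with
      | none =>
        have e3 : η j = 0 := by simp [hη, hs]
        have e4 : ρ j = 0 := by simp [hρ, hs]
        rw [e3, e4]
        simp only [hσ, tau, if_pos h, hs, Option.map_none, hj, gg]
        simp
      | some b =>
        have hc : P.Up st x' j ∧ σ' j ≠ none := ⟨h, by rw [hs]; simp⟩
        have e3 : η j = 25 / 3 * P.lm (st.k j) ^ 2 / P.wt st.k j := by
          simp only [hη]; rw [if_pos hc]
        have e4 : ρ j = P.lm (st.k j) * |dev P.c P.z j x' - st.s j| := by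
          simp only [hρ]; rw [if_pos hc]
        simp only [hσ, tau, if_pos h, hs, Option.map_some, hj, gg]
        set Y : ℝ := 4 ^ st.k j * P.th with hY
        have hwj2 : P.wt st.k j = 4 ^ st.k j := rfl
        have h4 : (0 : ℝ) < 4 ^ st.k j := by positivity
        have h1 : 4624 * η j - ρ j ≤ 25 / 3 * (1 + Y) - 12 * (1 + Y) := by
          rw [e3, e4]
          have a1 : 4624 * (25 / 3 * P.lm (st.k j) ^ 2 / P.wt st.k j) = 25 / 3 * (1 + Y) := by
            rw [lm_sq hth, hwj2, hY]
            field_simp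
          have a2 := lm_gp hP (st.k j) h.1
          have a3 : P.lm (st.k j) * P.gp (st.k j)
              ≤ P.lm (st.k j) * |dev P.c P.z j x' - st.s j| :=
            mul_le_mul_of_nonneg_left h.2 (P.lm_nonneg _)
          rw [a1]
          linarith
        have hy0 : 0 ≤ m j * P.wt st.k j := mul_nonneg (hm j) (hw0 j).le
        have hyY : m j * P.wt st.k j ≤ Y := by
          rw [hwj2, hY, mul_comm]
          exact mul_le_mul_of_nonneg_left (hmth j) h4.le
        have h2 := level_num hy0 hyY
        have h3 : m j * P.wt st'.k j = 4 * (m j * P.wt st.k j) := by rw [hwj]; ring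
        rw [h3]
        refine le_trans ?_ h2
        apply mul_le_mul_of_nonneg_left (exp_le_exp.2 h1)
        have := one_le_exp (show 0 ≤ 4 * (m j * P.wt st.k j) by positivity)
        linarith
    · have hk := hk_nup j h
      have hwj : P.wt st'.k j = P.wt st.k j := by unfold wt; rw [hk]
      have e3 : η j = 0 := by simp [hη, h]
      have e4 : ρ j = 0 := by simp [hρ, h]
      have e5 : P.hj st x' j (σ' j) = 1 := by
        unfold hj
        cases σ' j <;> simp [h]
      have e6 : σ j = σ' j := by simp only [hσ, tau, if_neg h]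
      rw [e3, e4, hwj, e5, e6]
      simp
  -- assembly
  have hG0 : 0 ≤ P.Gw m st' σ' := Finset.prod_nonneg fun j _ =>
    gg_nonneg (mul_nonneg (hm j) (hw0' j).le) _
  calc P.Gw m st' σ' * exp (P.Ps st' σ')
      ≤ P.Gw m st' σ' * exp (P.Pm st x' σ + ∑ j, (4624 * η j - ρ j)) :=
        mul_le_mul_of_nonneg_left (exp_le_exp.2 hexp) hG0
    _ = (∏ j, gg (m j * P.wt st'.k j) (σ' j) * exp (4624 * η j - ρ j)) * exp (P.Pm st x' σ) := by
        rw [exp_add, exp_sum, Finset.prod_mul_distrib]
        unfold Gw
        ring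
    _ ≤ (∏ j, P.hj st x' j (σ' j) * gg (m j * P.wt st.k j) (σ j)) * exp (P.Pm st x' σ) := by
        apply mul_le_mul_of_nonneg_right _ (exp_pos _).le
        apply Finset.prod_le_prod
        · intro j _
          exact mul_nonneg (gg_nonneg (mul_nonneg (hm j) (hw0' j).le) _) (exp_pos _).le
        · intro j _; exact hrow j
    _ = _ := by
        rw [Finset.prod_mul_distrib]
        unfold Gw
        ring

/-- the potential after a step -/
theorem Pt_step_le {m : J → ℝ} (hm : ∀ j, 0 ≤ m j) (hmth : ∀ j, m j ≤ P.th) {st : St V J}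
    (hI : P.Inv st) {ξ : V → ℝ} (hξ : ∀ i, |ξ i| ≤ 1) :
    P.Pt m (P.step st ξ) ≤ ∑ σ, P.Gw m st σ * exp (P.Pm st (P.nx st ξ) σ) := by
  classical
  unfold Pt
  refine (Finset.sum_le_sum fun σ' _ => level_step hP hm hmth hI hξ σ').trans ?_
  refine sum_merge (fun j s => P.tau st (P.nx st ξ) j s) (fun j s => P.hj st (P.nx st ξ) j s)
    (fun σ => P.Gw m st σ * exp (P.Pm st (P.nx st ξ) σ)) (fun σ => ?_)
    (fun j s => P.hj_nonneg st _ j s) (fun j s => ?_)
  · apply mul_nonneg _ (exp_pos _).le
    exact Finset.prod_nonneg fun j _ => gg_nonneg (mul_nonneg (hm j) (P.wt_pos st.k j).le) _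
  · exact P.hj_sum st _ j s

/-- the potential is a supermartingale -/
theorem Pt_one {m : J → ℝ} (hm : ∀ j, 0 ≤ m j) (hmth : ∀ j, m j ≤ P.th) {st : St V J}
    (hI : P.Inv st) (hγU : 591872 * (P.γ * P.U ^ 3) ≤ 1) :
    avg (fun ξ : V → Bool => P.Pt m (P.step st fun p => sgb (ξ p))) ≤ P.Pt m st := by
  refine (avg_mono fun ξ => Pt_step_le hP hm hmth hI fun i => (abs_sgb _).le).trans ?_
  rw [avg_sum]
  unfold Pt
  refine Finset.sum_le_sum fun σ _ => ?_
  rw [avg_mul_left]
  apply mul_le_mul_of_nonneg_left (mid_avg hP hI hγU σ)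
  exact Finset.prod_nonneg fun j _ => gg_nonneg (mul_nonneg (hm j) (P.wt_pos st.k j).le) _

end Par

end Pool.Agent.Helper26.Bg
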