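import Pool.Agent.Helper26.Bg.Events
import Pool.Agent.Helper26.Loc.Glue

set_option linter.unusedSectionVars false

namespace Pool.Agent.Helper26.Bg

open Finset Real
open Pool.Agent.Helper26.Bf
open Pool.Agent.Helper26.Loc (tq Rq su ZZ ZZ_of_eq ZZ_of_mem ZZ_of_not_mem)
open Pool.Agent.Helper26.Gsw (dev dev_add cl mem_cl cl_eq touched eq_or_of_abs)

theorem glue' {V J Q : Type*} [Fintype V] [Fintype J] [Fintype Q]
    (c : J → V → ℝ) (y : V → ℝ) (q : ∀ i, |y i| ≠ 1 → Q)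
    (r : Q → Q → Prop) (hrs : ∀ a b, r a b → r b a)
    (hr : ∀ l i i' (hi : |y i| ≠ 1) (hi' : |y i'| ≠ 1), c l i ≠ 0 → c l i' ≠ 0 →
      r (q i hi) (q i' hi'))
    (K : ℕ) (hK : ∀ i hi, #(cl r (q i hi)) ≤ K) (B : ℝ) (hB0 : 0 ≤ B)
    (hB : ∀ C : Finset Q, #C ≤ K → ∃ χ : V → ℝ, (∀ i, χ i = 1 ∨ χ i = -1) ∧
      (∀ i, |ZZ y q C i| = 1 → χ i = ZZ y q C i) ∧ ∀ j, |dev c (ZZ y q C) j χ| ≤ B) :
    ∃ χ : V → ℝ, (∀ i, χ i = 1 ∨ χ i = -1) ∧ (∀ i, |y i| = 1 → χ i = y i) ∧
      ∀ j, |dev c y j χ| ≤ B := by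
  classical
  have hX : ∀ C : Finset Q, ∃ χ : V → ℝ, #C ≤ K → (∀ i, χ i = 1 ∨ χ i = -1) ∧
      (∀ i, |ZZ y q C i| = 1 → χ i = ZZ y q C i) ∧ ∀ j, |dev c (ZZ y q C) j χ| ≤ B := by
    intro C
    by_cases hC : #C ≤ K
    · obtain ⟨χ, hχ⟩ := hB C hC
      exact ⟨χ, fun _ => hχ⟩
    · exact ⟨fun _ => 1, fun h => absurd h hC⟩
  choose X hX using hX
  have hself : ∀ j, j ∈ cl r j := fun j => mem_cl.2 Relation.ReflTransGen.refl
  set χ : V → ℝ := fun i => if h : |y i| = 1 then y i else X (cl r (q i h)) i with hχ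
  have hχ1 : ∀ i, |y i| = 1 → χ i = y i := fun i h => by simp [hχ, h]
  have hχ2 : ∀ i (h : |y i| ≠ 1), χ i = X (cl r (q i h)) i := fun i h => by simp [hχ, h]
  refine ⟨χ, fun i => ?_, hχ1, fun l => ?_⟩
  · by_cases h : |y i| = 1
    · rw [hχ1 i h]; exact eq_or_of_abs h
    · rw [hχ2 i h]; exact (hX _ (hK i h)).1 i
  · by_cases hex : ∃ i, c l i ≠ 0 ∧ |y i| ≠ 1
    · obtain ⟨i0, hi0, hy0⟩ := hex
      set C := cl r (q i0 hy0) with hC
      obtain ⟨-, hX2, hX3⟩ := hX C (hK i0 hy0)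
      have heq : dev c y l χ = dev c (ZZ y q C) l (X C) := by
        refine Finset.sum_congr rfl fun i _ => ?_
        by_cases hci : c l i = 0
        · rw [hci, zero_mul, zero_mul]
        · congr 1
          by_cases h : |y i| = 1
          · have hZi : ZZ y q C i = y i := ZZ_of_eq h
            rw [hχ1 i h, hX2 i (by rw [hZi]; exact h), hZi]
          · have hrel : r (q i h) (q i0 hy0) := hr l i i0 h hy0 hci hi0
            have hcc : cl r (q i h) = C := cl_eq hrs hrel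
            have hmem : q i h ∈ C := by rw [← hcc]; exact hself _
            have hZi : ZZ y q C i = y i := ZZ_of_mem h hmem
            rw [hχ2 i h, hcc, hZi]
      rw [heq]
      exact hX3 l
    · push Not at hex
      have : dev c y l χ = 0 := by
        refine Finset.sum_eq_zero fun i _ => ?_
        by_cases hci : c l i = 0
        · rw [hci, zero_mul]
        · rw [hχ1 i (hex i hci), sub_self, mul_zero]
      rw [this, abs_zero]
      exact hB0

namespace Par

variable {V J : Type*} [Fintype V] [DecidableEq V] [Fintype J] [DecidableEq J] {P : Par V J}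

theorem level (hP : P.Ok)
    (hD : ∀ j, #(univ.filter fun l => ∃ i, P.c j i ≠ 0 ∧ P.c l i ≠ 0) ≤ P.D)
    {k : ℕ} {ω : V → Fin P.N → Bool} (hω : ∀ a, P.bad ω a → #(cl (P.br ω) a) ≤ k)
    {B : ℝ} (hB0 : 0 ≤ B)
    (hB : ∀ Z : V → ℝ, (∀ i, |Z i| ≤ 1) → #(touched P.c Z) ≤ k * P.D →
      ∃ χ : V → ℝ, (∀ i, χ i = 1 ∨ χ i = -1) ∧ (∀ i, |Z i| = 1 → χ i = Z i) ∧
        ∀ j, |dev P.c Z j χ| ≤ B) :
    ∃ χ : V → ℝ, (∀ i, χ i = 1 ∨ χ i = -1) ∧ (∀ i, |P.z i| = 1 → χ i = P.z i) ∧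
      ∀ j, |dev P.c P.z j χ| ≤ P.GG (P.K + 1) + P.D * P.δ + B := by
  classical
  have hI := inv_xs hP ω P.N
  set x := (P.xs ω P.N).x with hx
  have hxabs : ∀ i, |x i| ≤ 1 := hI.hx
  have hδ0 : 0 < P.δ := lt_of_lt_of_le (mul_pos hP.hγ (by have := U_pos hP; positivity)) hP.hδ
  set y : V → ℝ := fun i => if |x i| < 1 - P.δ ∧ ∃ j, P.c j i ≠ 0 then x i
    else if 0 ≤ x i then 1 else -1 with hy
  have hy1 : ∀ i, (|x i| < 1 - P.δ ∧ ∃ j, P.c j i ≠ 0) → y i = x i := fun i h => by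
    simp only [hy, if_pos h]
  have hy2 : ∀ i, ¬ (|x i| < 1 - P.δ ∧ ∃ j, P.c j i ≠ 0) → |y i| = 1 := by
    intro i h
    simp only [hy, if_neg h]
    split_ifs <;> simp
  have hyabs : ∀ i, |y i| ≤ 1 := by
    intro i
    by_cases h : |x i| < 1 - P.δ ∧ ∃ j, P.c j i ≠ 0
    · rw [hy1 i h]; exact hxabs i
    · exact (hy2 i h).le
  have hyx : ∀ j i, P.c j i ≠ 0 → |y i - x i| ≤ P.δ := by
    intro j i hji
    by_cases h : |x i| < 1 - P.δ
    · rw [hy1 i ⟨h, j, hji⟩, sub_self, abs_zero]; exact hδ0.le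
    · have h3 := hxabs i
      have h4 := not_lt.1 h
      have h5 : ¬ (|x i| < 1 - P.δ ∧ ∃ j, P.c j i ≠ 0) := fun h' => h h'.1
      simp only [hy, if_neg h5]
      by_cases h6 : 0 ≤ x i
      · rw [abs_of_nonneg h6] at h3 h4
        rw [if_pos h6, abs_of_nonneg (by linarith)]; linarith
      · rw [abs_of_neg (not_le.1 h6)] at h3 h4
        rw [if_neg h6, abs_of_nonpos (by linarith)]; linarith
  have hyz : ∀ i, |P.z i| = 1 → y i = P.z i := by
    intro i hi
    have h1 : x i = P.z i := x_fixed hP hi ω P.N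
    have h2 : ¬ (|x i| < 1 - P.δ ∧ ∃ j, P.c j i ≠ 0) := by
      rintro ⟨h3, -⟩
      rw [h1, hi] at h3
      linarith
    simp only [hy, if_neg h2]
    rw [h1]
    rcases eq_or_of_abs hi with h | h
    · rw [h]; norm_num
    · rw [h]; norm_num
  have hfrac : ∀ i, |y i| ≠ 1 → |x i| < 1 - P.δ ∧ ∃ j, P.c j i ≠ 0 := by
    intro i h
    by_contra h'
    exact h (hy2 i h')
  -- deviation of the rounded point
  have hdevy : ∀ j, |dev P.c P.z j y| ≤ P.GG (P.K + 1) + P.D * P.δ := by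
    intro j
    rw [dev_add P.c P.z x y j]
    have h3 : |dev P.c x j y| ≤ P.D * P.δ := by
      have e1 : dev P.c x j y
          = ∑ i ∈ univ.filter (fun i => P.c j i ≠ 0), P.c j i * (y i - x i) := by
        unfold dev
        rw [Finset.sum_filter_of_ne]
        intro i _ h h0
        exact h (by rw [h0, zero_mul])
      rw [e1]
      calc _ ≤ ∑ i ∈ univ.filter (fun i => P.c j i ≠ 0), |P.c j i * (y i - x i)| :=
            Finset.abs_sum_le_sum_abs _ _
        _ ≤ ∑ _i ∈ univ.filter (fun i => P.c j i ≠ 0), P.δ := by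
            refine Finset.sum_le_sum fun i hi => ?_
            rw [abs_mul]
            calc |P.c j i| * |y i - x i| ≤ 1 * P.δ :=
                  mul_le_mul (abs_c_le hP j i) (hyx j i (Finset.mem_filter.1 hi).2)
                    (abs_nonneg _) zero_le_one
              _ = _ := one_mul _
        _ = #(univ.filter fun i => P.c j i ≠ 0) * P.δ := by simp
        _ ≤ P.D * P.δ := by
            apply mul_le_mul_of_nonneg_right _ hδ0.le
            exact_mod_cast hP.hrow j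
    calc _ ≤ |dev P.c P.z j x| + |dev P.c x j y| := abs_add_le _ _
      _ ≤ P.GG (P.K + 1) + P.D * P.δ := add_le_add (abs_dev_le hP hI j) h3
  -- cause of a fractional coordinate
  have hq : ∀ i, |y i| ≠ 1 → ∃ a : J ⊕ V, P.bad ω a ∧ ∀ l, P.c l i ≠ 0 → tq P.c a l := by
    intro i h
    obtain ⟨h1, h2⟩ := hfrac i h
    by_cases hb : ∃ j, P.c j i ≠ 0 ∧ (P.xs ω P.N).k j = P.K + 1
    · obtain ⟨j, hj1, hj2⟩ := hb
      exact ⟨Sum.inl j, ⟨hj2, i, hj1⟩, fun l hl => ⟨i, hj1, hl⟩⟩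
    · push Not at hb
      refine ⟨Sum.inr i, ⟨h1, h2, fun j hj => ?_⟩, fun l hl => hl⟩
      have h3 := hb j hj
      have h4 := hI.hk j
      omega
  choose q hq1 hq2 using hq
  obtain ⟨χ, hχ1, hχ3, hχ2⟩ := glue' P.c y q (P.br ω) (br_symm ω)
    (fun l i i' hi hi' hc hc' => ⟨hq1 i hi, hq1 i' hi', l, hq2 i hi l hc, hq2 i' hi' l hc'⟩)
    k (fun i hi => hω _ (hq1 i hi)) B hB0
    (fun C hC => by
      have hZ : ∀ i, |ZZ y q C i| ≤ 1 := by
        intro i
        by_cases h : |y i| = 1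
        · rw [ZZ_of_eq h]; exact hyabs i
        · by_cases h' : q i h ∈ C
          · rw [ZZ_of_mem h h']; exact hyabs i
          · rw [ZZ_of_not_mem h h']; simp
      have htouch : #(touched P.c (ZZ y q C)) ≤ k * P.D := by
        have hsub : touched P.c (ZZ y q C) ⊆ C.biUnion (fun a => univ.filter fun l => tq P.c a l) := by
          intro l hl'
          simp only [touched, Finset.mem_filter, Finset.mem_univ, true_and] at hl'
          obtain ⟨i, h3, h4⟩ := hl'
          by_cases h : |y i| = 1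
          · rw [ZZ_of_eq h, h] at h4; exact absurd h4 (lt_irrefl _)
          · by_cases h' : q i h ∈ C
            · rw [Finset.mem_biUnion]
              exact ⟨q i h, h', by simpa using hq2 i h l h3⟩
            · rw [ZZ_of_not_mem h h'] at h4; simp at h4
        have hdeg : ∀ a, #(univ.filter fun l => tq P.c a l) ≤ P.D := by
          intro a
          cases a with
          | inl j =>
            refine le_trans (Finset.card_le_card fun l hl => ?_) (hD j)
            exact Finset.mem_filter.2 ⟨Finset.mem_univ _, (Finset.mem_filter.1 hl).2⟩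
          | inr i =>
            refine le_trans (Finset.card_le_card fun l hl => ?_) (hP.hcol i)
            exact Finset.mem_filter.2 ⟨Finset.mem_univ _, (Finset.mem_filter.1 hl).2⟩
        calc _ ≤ _ := Finset.card_le_card hsub
          _ ≤ ∑ a ∈ C, #(univ.filter fun l => tq P.c a l) := Finset.card_biUnion_le
          _ ≤ ∑ _a ∈ C, P.D := Finset.sum_le_sum fun a _ => hdeg a
          _ = #C * P.D := by simp
          _ ≤ _ := Nat.mul_le_mul_right _ hC
      exact hB _ hZ htouch)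
  refine ⟨χ, hχ1, fun i hi => ?_, fun j => ?_⟩
  · rw [hχ3 i (by rw [hyz i hi]; exact hi), hyz i hi]
  · rw [dev_add P.c P.z y χ j]
    exact (abs_add_le _ _).trans (add_le_add (hdevy j) (hχ2 j))

end Par

end Pool.Agent.Helper26.Bg
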