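import Pool.Agent.Helper26.Bg.Ft
import Pool.Agent.Helper26.Bf.En

namespace Pool.Agent.Helper26.Bg

open Finset Real
open Pool.Agent.Helper26.Bf (es es_self sum_es_mul)

variable {V J : Type*} [Fintype V] [Fintype J]

/-- energy of the slopes `lam` at the test vector `u` -/
noncomputable def NN (c : J → V → ℝ) (A : Finset V) (x : V → ℝ) (w : J → ℝ) (lam u : J → ℝ) : ℝ :=
  ∑ i ∈ A, Ft (x i) (9248 * ∑ j, c j i * u j) / 9248 + 4624 * ∑ j, (lam j - u j) ^ 2 / w j

variable {c : J → V → ℝ} {A : Finset V} {x : V → ℝ} {w : J → ℝ}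

omit [Fintype V] in
theorem NN_nonneg (hw : ∀ j, 0 < w j) (hx : ∀ i ∈ A, |x i| ≤ 1) (lam u : J → ℝ) :
    0 ≤ NN c A x w lam u := by
  unfold NN
  apply add_nonneg
  · exact Finset.sum_nonneg fun i hi => div_nonneg (Ft_nonneg (hx i hi) _) (by norm_num)
  · apply mul_nonneg (by norm_num)
    exact Finset.sum_nonneg fun j _ => div_nonneg (sq_nonneg _) (hw j).le

omit [Fintype V] in
theorem NN_lower (hw : ∀ j, 0 < w j) (hx : ∀ i ∈ A, |x i| ≤ 1) (lam u : J → ℝ) (j : J) :
    4624 * ((lam j - u j) ^ 2 / w j) ≤ NN c A x w lam u := by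
  unfold NN
  have h1 : 0 ≤ ∑ i ∈ A, Ft (x i) (9248 * ∑ j, c j i * u j) / 9248 :=
    Finset.sum_nonneg fun i hi => div_nonneg (Ft_nonneg (hx i hi) _) (by norm_num)
  have h2 : (lam j - u j) ^ 2 / w j ≤ ∑ j, (lam j - u j) ^ 2 / w j :=
    Finset.single_le_sum (f := fun j => (lam j - u j) ^ 2 / w j)
      (fun j _ => div_nonneg (sq_nonneg _) (hw j).le) (Finset.mem_univ j)
  linarith

omit [Fintype V] in
theorem NN_zero_le (lam : J → ℝ) : NN c A x w lam 0 = 4624 * ∑ j, lam j ^ 2 / w j := by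
  unfold NN
  simp [Ft_zero]

omit [Fintype V] in
theorem continuous_NN (hx : ∀ i ∈ A, |x i| ≤ 1) (lam : J → ℝ) :
    Continuous fun u => NN c A x w lam u := by
  unfold NN
  apply Continuous.add
  · apply continuous_finsetSum
    intro i hi
    have h1 : Continuous fun u : J → ℝ => 9248 * ∑ j, c j i * u j := by fun_prop
    exact ((continuous_Ft (hx i hi)).comp h1).div_const _
  · fun_prop

omit [Fintype V] in
theorem exists_min (hw : ∀ j, 0 < w j) (hx : ∀ i ∈ A, |x i| ≤ 1) (lam : J → ℝ) :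
    ∃ u, ∀ v, NN c A x w lam u ≤ NN c A x w lam v := by
  set B := NN c A x w lam lam with hB
  have hB0 : 0 ≤ B := NN_nonneg hw hx _ _
  set R : ℝ := 1 + B * ∑ j, w j with hR
  have hW0 : ∀ j, w j ≤ ∑ j, w j := fun j =>
    Finset.single_le_sum (fun j _ => (hw j).le) (Finset.mem_univ j)
  have hWs : 0 ≤ ∑ j, w j := Finset.sum_nonneg fun j _ => (hw j).le
  have hR1 : 1 ≤ R := by
    have : 0 ≤ B * ∑ j, w j := mul_nonneg hB0 hWs
    linarith
  set S : Set (J → ℝ) := Set.pi Set.univ fun j => Set.Icc (lam j - R) (lam j + R) with hS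
  have hSc : IsCompact S := isCompact_univ_pi fun j => isCompact_Icc
  have hlS : lam ∈ S := by
    intro j _
    exact ⟨by linarith, by linarith⟩
  obtain ⟨u, hu, hmin⟩ := hSc.exists_isMinOn ⟨lam, hlS⟩
    (continuous_NN (c := c) (w := w) hx lam).continuousOn
  refine ⟨u, fun v => ?_⟩
  by_cases hv : v ∈ S
  · exact hmin hv
  · have h1 : NN c A x w lam u ≤ B := hmin hlS
    refine h1.trans ?_
    have h2 : ∃ j, R < |lam j - v j| := by
      by_contra hcon
      push Not at hcon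
      apply hv
      intro j _
      have := abs_le.1 (hcon j)
      exact ⟨by linarith [this.2], by linarith [this.1]⟩
    obtain ⟨j, hj⟩ := h2
    refine le_trans ?_ (NN_lower hw hx lam v j)
    have h3 : R ^ 2 ≤ (lam j - v j) ^ 2 := by
      rw [← sq_abs (lam j - v j)]
      exact pow_le_pow_left₀ (by linarith) hj.le 2
    have h4 : B * w j ≤ R ^ 2 := by
      calc B * w j ≤ B * ∑ j, w j := mul_le_mul_of_nonneg_left (hW0 j) hB0
        _ ≤ R := by rw [hR]; linarith
        _ = R * 1 := (mul_one R).symm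
        _ ≤ R * R := mul_le_mul_of_nonneg_left hR1 (by linarith)
        _ = R ^ 2 := (sq R).symm
    have h5 : B ≤ (lam j - v j) ^ 2 / w j := by
      rw [le_div_iff₀ (hw j)]; linarith
    have h6 : 0 ≤ (lam j - v j) ^ 2 / w j := div_nonneg (sq_nonneg _) (hw j).le
    linarith

open Classical in
/-- the minimizer -/
noncomputable def um (c : J → V → ℝ) (A : Finset V) (x : V → ℝ) (w : J → ℝ) (lam : J → ℝ) :
    J → ℝ :=
  if h : ∃ u, ∀ v, NN c A x w lam u ≤ NN c A x w lam v then h.choose else 0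

/-- the minimal energy -/
noncomputable def qm (c : J → V → ℝ) (A : Finset V) (x : V → ℝ) (w : J → ℝ) (lam : J → ℝ) : ℝ :=
  NN c A x w lam (um c A x w lam)

omit [Fintype V] in
theorem qm_le (hw : ∀ j, 0 < w j) (hx : ∀ i ∈ A, |x i| ≤ 1) (lam v : J → ℝ) :
    qm c A x w lam ≤ NN c A x w lam v := by
  unfold qm um
  rw [dif_pos (exists_min hw hx lam)]
  exact (exists_min hw hx lam).choose_spec v

omit [Fintype V] in
theorem qm_nonneg (hw : ∀ j, 0 < w j) (hx : ∀ i ∈ A, |x i| ≤ 1) (lam : J → ℝ) :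
    0 ≤ qm c A x w lam := NN_nonneg hw hx _ _

omit [Fintype V] in
theorem stat [DecidableEq J] (hw : ∀ j, 0 < w j) (hx : ∀ i ∈ A, |x i| ≤ 1) (lam : J → ℝ) (j : J) :
    9248 * (lam j - um c A x w lam j) = w j * ∑ i ∈ A, c j i * ((2 - x i ^ 2) *
      ss (x i) (9248 * ∑ l, c l i * um c A x w lam l)) := by
  set u := um c A x w lam with hu
  have hmin : ∀ v, NN c A x w lam u ≤ NN c A x w lam v := fun v => qm_le hw hx lam v
  set g : ℝ → ℝ := fun τ => NN c A x w lam (fun l => u l + τ * es j l) with hg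
  have hg0 : IsLocalMin g 0 := by
    apply Filter.Eventually.of_forall
    intro τ
    have e0 : (fun l => u l + 0 * es j l) = u := by funext l; ring
    simp only [hg, e0]
    exact hmin _
  set b : V → ℝ := fun i => 9248 * ∑ l, c l i * u l with hb
  have hbi : ∀ i τ, 9248 * ∑ l, c l i * (u l + τ * es j l) = b i + 9248 * c j i * τ := by
    intro i τ
    have e1 : ∑ l, c l i * (u l + τ * es j l) = ∑ l, c l i * u l + τ * c j i := by
      have e2 : ∑ l, es j l * c l i = c j i := sum_es_mul j _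
      rw [← e2, Finset.mul_sum, ← Finset.sum_add_distrib]
      exact Finset.sum_congr rfl fun l _ => by ring
    rw [e1]; ring
  have hd1 : ∀ i ∈ A, HasDerivAt (fun τ : ℝ => Ft (x i) (9248 * ∑ l, c l i * (u l + τ * es j l)) / 9248)
      (c j i * ((2 - x i ^ 2) * ss (x i) (b i))) 0 := by
    intro i hi
    simp only [hbi]
    have h1 : HasDerivAt (fun τ : ℝ => b i + 9248 * c j i * τ) (9248 * c j i) 0 := by
      simpa using ((hasDerivAt_id (0 : ℝ)).const_mul (9248 * c j i)).const_add (b i)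
    have h2 : HasDerivAt (Ft (x i)) ((2 - x i ^ 2) * ss (x i) (b i + 9248 * c j i * 0))
        (b i + 9248 * c j i * 0) := hasDerivAt_Ft (hx i hi) _
    have h3 := (h2.comp (0 : ℝ) h1).div_const 9248
    refine h3.congr_deriv ?_
    rw [mul_zero, add_zero]
    field_simp
  have hd2 : ∀ l, HasDerivAt (fun τ : ℝ => (lam l - (u l + τ * es j l)) ^ 2 / w l)
      (es j l * (-(2 * (lam l - u l)) / w l)) 0 := by
    intro l
    have h1 : HasDerivAt (fun τ : ℝ => lam l - (u l + τ * es j l)) (-(es j l)) 0 := by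
      simpa using (((hasDerivAt_id (0 : ℝ)).mul_const (es j l)).const_add (u l)).const_sub (lam l)
    have h2 := (h1.pow 2).div_const (w l)
    refine h2.congr_deriv ?_
    simp
    ring
  have hD : HasDerivAt g (∑ i ∈ A, c j i * ((2 - x i ^ 2) * ss (x i) (b i))
      + 4624 * ∑ l, es j l * (-(2 * (lam l - u l)) / w l)) 0 := by
    have h1 : HasDerivAt (fun τ : ℝ => ∑ i ∈ A,
        Ft (x i) (9248 * ∑ l, c l i * (u l + τ * es j l)) / 9248)
        (∑ i ∈ A, c j i * ((2 - x i ^ 2) * ss (x i) (b i))) 0 := by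
      exact HasDerivAt.fun_sum fun i hi => hd1 i hi
    have h2 : HasDerivAt (fun τ : ℝ => ∑ l, (lam l - (u l + τ * es j l)) ^ 2 / w l)
        (∑ l, es j l * (-(2 * (lam l - u l)) / w l)) 0 := by
      exact HasDerivAt.fun_sum fun l _ => hd2 l
    exact h1.add (h2.const_mul 4624)
  have h0 := hg0.hasDerivAt_eq_zero hD
  rw [sum_es_mul] at h0
  have hwj := hw j
  have h1 : ∑ i ∈ A, c j i * ((2 - x i ^ 2) * ss (x i) (b i)) = 9248 * (lam j - u j) / w j := by
    have : 4624 * (-(2 * (lam j - u j)) / w j) = -(9248 * (lam j - u j) / w j) := by ring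
    linarith
  rw [h1]
  field_simp

/-- effect of growing weights, dying columns and changing slopes -/
theorem qm_update {A' : Finset V} {w' lam lam' : J → ℝ} (hw' : ∀ j, 0 < w' j)
    (hx : ∀ i ∈ A, |x i| ≤ 1) (hA : A' ⊆ A) (u : J → ℝ) (η : J → ℝ)
    (hη : ∀ j, (lam' j - u j) ^ 2 / w' j ≤ (lam j - u j) ^ 2 / w j + η j) :
    qm c A' x w' lam' ≤ NN c A x w lam u + 4624 * ∑ j, η j := by
  refine (qm_le hw' (fun i hi => hx i (hA hi)) lam' u).trans ?_
  unfold NN
  have h1 : ∑ i ∈ A', Ft (x i) (9248 * ∑ j, c j i * u j) / 9248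
      ≤ ∑ i ∈ A, Ft (x i) (9248 * ∑ j, c j i * u j) / 9248 :=
    Finset.sum_le_sum_of_subset_of_nonneg hA fun i hi _ =>
      div_nonneg (Ft_nonneg (hx i hi) _) (by norm_num)
  have h2 : ∑ j, (lam' j - u j) ^ 2 / w' j ≤ ∑ j, (lam j - u j) ^ 2 / w j + ∑ j, η j := by
    rw [← Finset.sum_add_distrib]
    exact Finset.sum_le_sum fun j _ => hη j
  linarith

end Pool.Agent.Helper26.Bg
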