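import Pool.Agent.Helper26.Bg.Lev

set_option linter.unusedSectionVars false

namespace Pool.Agent.Helper26.Bg

open Finset Real
open Pool.Agent.Helper26.Bf
open Pool.Agent.Helper26.Loc (ee ee_self sum_ee_mul sum_mul_ee avg avg_mul_left avg_mul_right
  avg_mono avg_const avg_sum avg_slice sgb abs_sgb setSlice ind ind_true ind_false)
open Pool.Agent.Helper26.Gsw (dev)

namespace Par

variable {V J : Type*} [Fintype V] [DecidableEq V] [Fintype J] [DecidableEq J]
variable {P : Par V J} (hP : P.Ok)
include hP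

/-- the expected potential does not grow -/
theorem Pt_moment {m : J → ℝ} (hm : ∀ j, 0 ≤ m j) (hmth : ∀ j, m j ≤ P.th)
    (hγU : 591872 * (P.γ * P.U ^ 3) ≤ 1) (n : ℕ) (hn : n ≤ P.N) :
    avg (fun ω : V → Fin P.N → Bool => P.Pt m (P.xs ω n)) ≤ P.Pt m P.st0 := by
  induction n with
  | zero =>
    have : ∀ ω : V → Fin P.N → Bool, P.xs ω 0 = P.st0 := fun ω => rfl
    simp only [this]
    rw [avg_const]
  | succ n ih =>
    have ih := ih (by omega)
    set n' : Fin P.N := ⟨n, hn⟩ with hn'
    rw [avg_slice n']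
    refine le_trans (avg_mono fun ω => ?_) ih
    have hstep : ∀ ξ : V → Bool, P.xs (setSlice n' ω ξ) (n + 1)
        = P.step (P.xs ω n) (fun p => sgb (ξ p)) := fun ξ => xs_succ_setSlice ω n' ξ
    simp only [hstep]
    exact Pt_one hP hm hmth (inv_xs hP ω n) hγU

omit hP in
theorem prod_sum_option (g : J → Option Bool → ℝ) :
    ∑ σ : J → Option Bool, ∏ j, g j (σ j) = ∏ j, ∑ s, g j s := by
  rw [Finset.prod_univ_sum, Fintype.piFinset_univ]

theorem Pt_lower {m : J → ℝ} (hm : ∀ j, 0 ≤ m j) {st : St V J} (hI : P.Inv st) :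
    exp (∑ j, m j * P.wt st.k j) ≤ P.Pt m st := by
  have hw0 : ∀ j, 0 < P.wt st.k j := P.wt_pos st.k
  rw [exp_sum]
  have h1 : ∀ j, exp (m j * P.wt st.k j) ≤ ∑ s, gg (m j * P.wt st.k j) s *
      exp (vl s * (P.lm (st.k j) * (dev P.c P.z j st.x - st.s j))) := by
    intro j
    rw [sum_gg]
    set a := P.lm (st.k j) * (dev P.c P.z j st.x - st.s j) with ha
    have h2 : 1 ≤ cosh a := one_le_cosh a
    rw [cosh_eq] at h2
    have h3 := one_le_exp (mul_nonneg (hm j) (hw0 j).le)
    have e1 : vl none * a = 0 := by simp [vl]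
    have e2 : vl (some true) * a = a := by simp [vl]
    have e3 : vl (some false) * a = -a := by simp [vl]
    rw [e1, e2, e3, exp_zero]
    nlinarith
  calc ∏ j, exp (m j * P.wt st.k j)
      ≤ ∏ j, ∑ s, gg (m j * P.wt st.k j) s *
          exp (vl s * (P.lm (st.k j) * (dev P.c P.z j st.x - st.s j))) :=
        Finset.prod_le_prod (fun j _ => (exp_pos _).le) fun j _ => h1 j
    _ = ∑ σ : J → Option Bool, ∏ j, (gg (m j * P.wt st.k j) (σ j) *
          exp (vl (σ j) * (P.lm (st.k j) * (dev P.c P.z j st.x - st.s j)))) :=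
        (prod_sum_option _).symm
    _ ≤ P.Pt m st := by
        unfold Pt
        refine Finset.sum_le_sum fun σ _ => ?_
        rw [Finset.prod_mul_distrib]
        apply mul_le_mul_of_nonneg_left
        · rw [← exp_sum]
          apply exp_le_exp.2
          unfold Ps
          have h4 := qm_nonneg (c := P.c) (A := P.alive st) (x := st.x) hw0
            (fun i _ => hI.hx i) (P.lv st σ)
          have h5 : ∑ j, vl (σ j) * (P.lm (st.k j) * (dev P.c P.z j st.x - st.s j))
              = ∑ j, P.lv st σ j * (dev P.c P.z j st.x - st.s j) :=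
            Finset.sum_congr rfl fun j _ => by unfold lv; ring
          rw [h5]
          linarith
        · exact Finset.prod_nonneg fun j _ => gg_nonneg (mul_nonneg (hm j) (hw0 j).le) _

theorem Pt_start {m : J → ℝ} (hm : ∀ j, 0 ≤ m j) (hmth : ∀ j, m j ≤ P.th)
    (hth : P.th ≤ 1 / 30) : P.Pt m P.st0 ≤ exp (6 * ∑ j, m j) := by
  have hth0 := hP.hth
  have hwt : ∀ j, P.wt P.st0.k j = 1 := fun j => by simp [wt, st0]
  have hlm : P.lm 0 ^ 2 = (1 + P.th) / 4624 := by
    rw [lm_sq hth0]; simp
  have hE : exp (1 + P.th) ≤ 3 := by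
    rw [exp_add]
    have h1 := exp_one_lt_d9
    have h2 : |exp P.th - 1| ≤ 2 * |P.th| := Real.abs_exp_sub_one_le (by
      rw [abs_of_nonneg hth0]; linarith)
    rw [abs_of_nonneg hth0] at h2
    have h3 := (abs_le.1 h2).2
    have h4 := exp_pos P.th
    nlinarith
  set T : Option Bool → ℝ := fun s => match s with
    | none => 1
    | some _ => exp (1 + P.th) with hT
  have hPs : ∀ σ, exp (P.Ps P.st0 σ) ≤ ∏ j, T (σ j) := by
    intro σ
    have h1 : P.Ps P.st0 σ ≤ 4624 * ∑ j, P.lv P.st0 σ j ^ 2 := by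
      unfold Ps
      have h2 : ∑ j, P.lv P.st0 σ j * (dev P.c P.z j P.st0.x - P.st0.s j) = 0 := by
        refine Finset.sum_eq_zero fun j _ => ?_
        have : dev P.c P.z j P.st0.x - P.st0.s j = 0 := by simp [dev, st0]
        rw [this, mul_zero]
      have h3 := qm_le (c := P.c) (A := P.alive P.st0) (x := P.st0.x) (P.wt_pos P.st0.k)
        (fun i _ => hP.hz i) (P.lv P.st0 σ) 0
      rw [NN_zero_le] at h3
      simp only [hwt, div_one] at h3
      rw [h2, zero_add]
      exact h3
    have h4 : ∏ j, T (σ j) = exp (∑ j, (if σ j = none then 0 else 1 + P.th)) := by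
      rw [exp_sum]
      refine Finset.prod_congr rfl fun j _ => ?_
      cases hs : σ j with
      | none => simp [hT]
      | some b => simp [hT]
    rw [h4]
    apply exp_le_exp.2
    refine h1.trans ?_
    rw [Finset.mul_sum]
    refine Finset.sum_le_sum fun j _ => ?_
    cases hs : σ j with
    | none => simp [lv, hs, vl]
    | some b =>
      have h5 : P.lv P.st0 σ j ^ 2 = P.lm 0 ^ 2 := by
        unfold lv
        rw [hs, mul_pow]
        have : vl (some b) ^ 2 = 1 := by cases b <;> simp [vl]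
        rw [this, one_mul]
        rfl
      rw [h5, hlm]
      simp only [reduceCtorEq, if_false]
      apply le_of_eq
      ring
  calc P.Pt m P.st0 ≤ ∑ σ : J → Option Bool, ∏ j, (gg (m j) (σ j) * T (σ j)) := by
        unfold Pt Gw
        refine Finset.sum_le_sum fun σ _ => ?_
        simp only [hwt, mul_one]
        rw [Finset.prod_mul_distrib]
        apply mul_le_mul_of_nonneg_left (hPs σ)
        exact Finset.prod_nonneg fun j _ => gg_nonneg (hm j) _
    _ = ∏ j, ∑ s, gg (m j) s * T s := prod_sum_option fun j s => gg (m j) s * T s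
    _ ≤ ∏ j, exp (6 * m j) := by
        apply Finset.prod_le_prod
        · intro j _
          apply Finset.sum_nonneg
          intro s _
          apply mul_nonneg (gg_nonneg (hm j) _)
          cases s with
          | none => simp [hT]
          | some b => simp only [hT]; exact (exp_pos _).le
        · intro j _
          rw [sum_gg]
          have h2 : |exp (m j) - 1| ≤ 2 * |m j| := Real.abs_exp_sub_one_le (by
            rw [abs_of_nonneg (hm j)]; linarith [hmth j])
          rw [abs_of_nonneg (hm j)] at h2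
          have h3 := (abs_le.1 h2).2
          have h4 := one_le_exp (hm j)
          have h5 : T none + (exp (m j) - 1) / 2 * (T (some true) + T (some false))
              = 1 + (exp (m j) - 1) * exp (1 + P.th) := by simp only [hT]; ring
          rw [h5]
          have h6 : (exp (m j) - 1) * exp (1 + P.th) ≤ (2 * m j) * 3 :=
            mul_le_mul h3 hE (exp_pos _).le (by have := hm j; positivity)
          have h7 := add_one_le_exp (6 * m j)
          linarith
    _ = exp (6 * ∑ j, m j) := by rw [← exp_sum, Finset.mul_sum]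

/-- joint probability that all columns in a sparse family are overloaded -/
theorem over_prob {κ t0 : ℝ} (hκ : 0 ≤ κ) (hth : P.th ≤ 1 / 30)
    (hγU : 591872 * (P.γ * P.U ^ 3) ≤ 1)
    (hent : ∀ j i, P.c j i ^ 2 ≤ t0) (ht0 : κ * t0 ≤ P.th) (A : Finset V)
    (hA : ∀ i ∈ A, ∀ i' ∈ A, i ≠ i' → ∀ j, P.c j i = 0 ∨ P.c j i' = 0) :
    avg (fun ω : V → Fin P.N → Bool => ind (∀ i ∈ A, 8 < P.load (P.xs ω P.N).k i))
      ≤ exp (-(2 * κ)) ^ #A := by
  set μ : J → ℝ := fun j => ∑ i ∈ A, P.c j i ^ 2 with hμ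
  have hμ0 : ∀ j, 0 ≤ μ j := fun j => Finset.sum_nonneg fun i _ => sq_nonneg _
  rcases A.eq_empty_or_nonempty with hemp | ⟨i1, hi1⟩
  · rw [hemp]
    simp only [Finset.notMem_empty, IsEmpty.forall_iff, implies_true, Finset.card_empty, pow_zero]
    rw [show (fun ω : V → Fin P.N → Bool => ind True) = fun _ => (1 : ℝ) from
      funext fun _ => ind_true trivial, avg_const]
  have hμt : ∀ j, μ j ≤ t0 := by
    intro j
    by_cases h : ∃ i ∈ A, P.c j i ≠ 0
    · obtain ⟨i, hi, hci⟩ := h
      have : μ j = P.c j i ^ 2 := by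
        rw [hμ]
        apply Finset.sum_eq_single i
        · intro b hb hbi
          rcases hA i hi b hb (Ne.symm hbi) j with h1 | h1
          · exact absurd h1 hci
          · rw [h1]; ring
        · intro h1; exact absurd hi h1
      rw [this]; exact hent j i
    · push Not at h
      have : μ j = 0 := Finset.sum_eq_zero fun i hi => by rw [h i hi]; ring
      rw [this]
      exact le_trans (sq_nonneg _) (hent j i1)
  set m : J → ℝ := fun j => κ * μ j with hm
  have hm0 : ∀ j, 0 ≤ m j := fun j => mul_nonneg hκ (hμ0 j)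
  have hmth : ∀ j, m j ≤ P.th := fun j => (mul_le_mul_of_nonneg_left (hμt j) hκ).trans ht0
  have hmom := Pt_moment hP hm0 hmth hγU P.N le_rfl
  have hstart := Pt_start hP hm0 hmth hth
  have hsum : ∑ j, m j ≤ κ * #A := by
    rw [← Finset.mul_sum]
    apply mul_le_mul_of_nonneg_left _ hκ
    calc ∑ j, μ j = ∑ i ∈ A, ∑ j, P.c j i ^ 2 := by rw [hμ, Finset.sum_comm]
      _ ≤ ∑ _i ∈ A, (1 : ℝ) := Finset.sum_le_sum fun i _ => hP.hc i
      _ = _ := by simp
  have hpt : ∀ ω : V → Fin P.N → Bool, ind (∀ i ∈ A, 8 < P.load (P.xs ω P.N).k i)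
      ≤ exp (-(8 * κ * #A)) * P.Pt m (P.xs ω P.N) := by
    intro ω
    by_cases h : ∀ i ∈ A, 8 < P.load (P.xs ω P.N).k i
    · rw [ind_true h]
      have h0 := Pt_lower hP hm0 (inv_xs hP ω P.N)
      have h1 : κ * (8 * (#A : ℝ)) ≤ ∑ j, m j * P.wt (P.xs ω P.N).k j := by
        have h2 : ∑ j, m j * P.wt (P.xs ω P.N).k j
            = κ * ∑ i ∈ A, P.load (P.xs ω P.N).k i := by
          unfold load
          rw [Finset.sum_comm, Finset.mul_sum]
          refine Finset.sum_congr rfl fun j _ => ?_
          simp only [hm, hμ]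
          rw [mul_assoc, Finset.sum_mul]
          congr 1
          exact Finset.sum_congr rfl fun i _ => by ring
        rw [h2]
        apply mul_le_mul_of_nonneg_left _ hκ
        calc 8 * (#A : ℝ) = ∑ _i ∈ A, (8 : ℝ) := by simp [mul_comm]
          _ ≤ ∑ i ∈ A, P.load (P.xs ω P.N).k i := Finset.sum_le_sum fun i hi => (h i hi).le
      calc (1 : ℝ) = exp (-(8 * κ * #A)) * exp (κ * (8 * (#A : ℝ))) := by
            rw [← exp_add, show -(8 * κ * (#A : ℝ)) + κ * (8 * #A) = 0 by ring, exp_zero]
        _ ≤ _ := mul_le_mul_of_nonneg_left ((exp_le_exp.2 h1).trans h0) (exp_pos _).le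
    · rw [ind_false h]
      apply mul_nonneg (exp_pos _).le
      exact (exp_pos _).le.trans (Pt_lower hP hm0 (inv_xs hP ω P.N))
  refine (avg_mono hpt).trans ?_
  rw [avg_mul_left]
  have h5 : P.Pt m P.st0 ≤ exp (6 * (κ * #A)) :=
    hstart.trans (exp_le_exp.2 (mul_le_mul_of_nonneg_left hsum (by norm_num)))
  refine (mul_le_mul_of_nonneg_left (hmom.trans h5) (exp_pos _).le).trans ?_
  rw [← exp_add, ← exp_nat_mul]
  apply exp_le_exp.2
  linarith

end Par

end Pool.Agent.Helper26.Bg
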