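import Pool.Agent.Helper26.Bg.Num

set_option linter.unusedSectionVars false

namespace Pool.Agent.Helper26.Bg

open Finset Real
open Pool.Agent.Helper26.Bf
open Pool.Agent.Helper26.Gsw (dev touched eq_or_of_abs)

/-- the numerical parameters -/
structure Num (D K d N : ℕ) (γ ℓ : ℝ) : Prop where
  hd : ((1 - 1 / (1 + 16 * (D : ℝ))) ^ 2) ^ d ≤ 1 / 2
  hγ : 0 < γ
  hδ : γ * (2 * UU D (4 ^ (K + 1)) d) ≤ 1 / (2 * (D : ℝ))
  hγU : 591872 * (γ * UU D (4 ^ (K + 1)) d ^ 3) ≤ 1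
  hγs : 128 * γ ^ 2 * (D : ℝ) ^ 4 * UU D (4 ^ (K + 1)) d ^ 4 ≤ 1 / 4 ^ K
  hτ : (N : ℝ) * γ ^ 2 / 4 ^ K * (1 + 92481 * (128 * ℓ / 23120)) ≤ 23120
  hκ : 129 * ℓ * ((K : ℝ) + 1) ^ 2 ≤ 50000 * (ℓ * (1 + log (1 + ℓ)) ^ 2)
  hsurv : 1 + 258 * ℓ ≤ (N : ℝ) * γ ^ 2 / 2000000000
  hov : ((K : ℝ) + 1) * (γ * (2 * D * UU D (4 ^ (K + 1)) d)) ≤ 1
  hk : ((1 + 2 * D ^ 2) * (N * (2 * d + 1)) * D) * (1 + D) < (2 * D) ^ (52 * (2 * D) ^ 20 + 64)
  hK5 : 5 ≤ K
  hK4 : 1024 ≤ (4 : ℝ) ^ K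

theorem K_bound {K : ℕ} {ℓ : ℝ} (hℓ0 : 0 ≤ ℓ)
    (hK : (4 : ℝ) ^ K ≤ 2 ^ 36 * (1 + ℓ) ^ 2) : (K : ℝ) + 1 ≤ 19 * (1 + log (1 + ℓ)) := by
  have hl2 := Real.log_two_gt_d9
  have hΛ : 0 ≤ log (1 + ℓ) := log_nonneg (by linarith)
  have h1 : (K : ℝ) * (2 * log 2) ≤ 36 * log 2 + 2 * log (1 + ℓ) := by
    have h2 := log_le_log (by positivity) hK
    rw [log_pow, log_mul (by norm_num) (by positivity), log_pow, log_pow] at h2
    have h3 : log 4 = 2 * log 2 := by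
      rw [show (4 : ℝ) = 2 ^ 2 by norm_num, log_pow]; norm_num
    rw [h3] at h2
    exact_mod_cast h2
  have h2 : (K : ℝ) * log 2 ≤ (18 + 19 * log (1 + ℓ)) * log 2 := by nlinarith
  have h3 : (K : ℝ) ≤ 18 + 19 * log (1 + ℓ) := le_of_mul_le_mul_right h2 (by linarith)
  linarith

theorem exists_num (D : ℕ) (hD1 : 1 ≤ D) :
    ∃ (K d N : ℕ) (γ : ℝ), Num D K d N γ (log (2 * D)) := by
  have hDr : (1 : ℝ) ≤ D := by exact_mod_cast hD1
  set X : ℝ := 2 * (D : ℝ) with hX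
  have hX2 : 2 ≤ X := by rw [hX]; linarith
  have hX0 : 0 < X := by linarith
  have hX1 : 1 ≤ X := by linarith
  set ℓ := log X with hℓ
  have hℓ0 : (69 : ℝ) / 100 ≤ ℓ := by
    have h1 : log 2 ≤ ℓ := log_le_log (by norm_num) hX2
    have := Real.log_two_gt_d9
    linarith
  have hℓX : ℓ ≤ X - 1 := log_le_sub_one_of_pos hX0
  have hℓpos : 0 < ℓ := by linarith
  set T0 : ℝ := 2 * 10 ^ 9 * (1 + 258 * ℓ) with hT0
  have hT0pos : 0 < T0 := by positivity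
  have hT0le : T0 + 1 ≤ 52 * 10 ^ 10 * ℓ := by rw [hT0]; linarith
  set T1 : ℝ := T0 + 1 with hT1
  have hT1pos : 1 ≤ T1 := by linarith
  set Tg : ℝ := T1 * (1 + 513 * ℓ) / 23120 with hTg
  have hTg1 : 1024 ≤ Tg := by
    rw [hTg, le_div_iff₀ (by norm_num)]
    have h1 : 1024 * 23120 ≤ T1 := by rw [hT1, hT0]; linarith
    have h2 : 1 ≤ 1 + 513 * ℓ := by linarith
    calc 1024 * (23120 : ℝ) = 1024 * 23120 * 1 := by ring
      _ ≤ T1 * (1 + 513 * ℓ) := mul_le_mul h1 h2 (by norm_num) (by linarith)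
  obtain ⟨K, hK1, hK2⟩ := exists_K (by linarith : 1 ≤ Tg)
  have hTgle : Tg ≤ 116 * 10 ^ 8 * ℓ ^ 2 := by
    rw [hTg, div_le_iff₀ (by norm_num)]
    calc T1 * (1 + 513 * ℓ) ≤ (52 * 10 ^ 10 * ℓ) * (515 * ℓ) :=
          mul_le_mul hT0le (by linarith) (by positivity) (by positivity)
      _ = (52 * 10 ^ 10 * 515) * ℓ ^ 2 := by ring
      _ ≤ (116 * 10 ^ 8 * 23120) * ℓ ^ 2 :=
          mul_le_mul_of_nonneg_right (by norm_num) (by positivity)
      _ = 116 * 10 ^ 8 * ℓ ^ 2 * 23120 := by ring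
  have h4K : (4 : ℝ) ^ K ≤ 464 * 10 ^ 8 * ℓ ^ 2 := by linarith
  have hK4 : (1024 : ℝ) ≤ 4 ^ K := hTg1.trans hK1
  set d : ℕ := 1 + 16 * D with hd
  set W : ℝ := 4 ^ (K + 1) with hW
  have hW0 : 0 < W := by positivity
  set U : ℝ := UU D W d with hU
  have hU1 : 1 ≤ U := by
    rw [hU]; unfold UU
    apply one_le_pow₀
    have : 0 ≤ 4 * (D : ℝ) ^ 2 * W := by positivity
    linarith
  obtain ⟨g1, g2, g3, g4, g5, g6⟩ := gam (D : ℝ) U T1 K hDr hU1 hT1pos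
  set G : ℝ := 600000 * (D : ℝ) ^ 2 * U ^ 3 * 8 ^ (K + 2) * T1 with hG
  set γ : ℝ := 1 / G with hγ
  have hG0 : 0 < G := one_div_pos.1 g1
  have hγsq : γ ^ 2 ≤ 1 := pow_le_one₀ g1.le g2
  set N := ⌈T0 / γ ^ 2⌉₊ with hN
  have hN1 : T0 ≤ N * γ ^ 2 := by
    have := Nat.le_ceil (T0 / γ ^ 2)
    rw [div_le_iff₀ (by positivity)] at this
    exact this
  have hN0 : (N : ℝ) ≤ T0 / γ ^ 2 + 1 := (Nat.ceil_lt_add_one (by positivity)).le
  have hN2 : N * γ ^ 2 ≤ T1 := by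
    calc (N : ℝ) * γ ^ 2 ≤ (T0 / γ ^ 2 + 1) * γ ^ 2 :=
          mul_le_mul_of_nonneg_right hN0 (by positivity)
      _ = T0 + γ ^ 2 := by field_simp
      _ ≤ T1 := by linarith
  have hNG : (N : ℝ) ≤ T1 * G ^ 2 := by
    have e1 : 1 / γ ^ 2 = G ^ 2 := by rw [hγ]; field_simp
    calc (N : ℝ) ≤ T0 / γ ^ 2 + 1 := hN0
      _ ≤ T0 / γ ^ 2 + 1 / γ ^ 2 := by
          have : 1 ≤ 1 / γ ^ 2 := by rw [le_div_iff₀ (by positivity)]; linarith
          linarith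
      _ = T1 * (1 / γ ^ 2) := by rw [hT1]; ring
      _ = T1 * G ^ 2 := by rw [e1]
  refine ⟨K, d, N, γ, ⟨?_, g1, ?_, g3, g4, ?_, ?_, ?_, g5, ?_, ?_, hK4⟩⟩
  · exact balance D
  · exact g6
  · have e1 : 1 + 92481 * (128 * ℓ / 23120) ≤ 1 + 513 * ℓ := by linarith
    rw [div_mul_eq_mul_div, div_le_iff₀ (by positivity)]
    calc (N : ℝ) * γ ^ 2 * (1 + 92481 * (128 * ℓ / 23120))
        ≤ T1 * (1 + 513 * ℓ) := mul_le_mul hN2 e1 (by positivity) (by positivity)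
      _ = 23120 * Tg := by rw [hTg]; ring
      _ ≤ 23120 * 4 ^ K := mul_le_mul_of_nonneg_left hK1 (by norm_num)
  · have hKb : (K : ℝ) + 1 ≤ 19 * (1 + log (1 + ℓ)) := by
      apply K_bound hℓpos.le
      calc (4 : ℝ) ^ K ≤ 464 * 10 ^ 8 * ℓ ^ 2 := h4K
        _ ≤ 2 ^ 36 * (1 + ℓ) ^ 2 := by
            apply mul_le_mul (by norm_num) _ (by positivity) (by norm_num)
            exact pow_le_pow_left₀ hℓpos.le (by linarith) 2
    have hΛ : 0 ≤ log (1 + ℓ) := log_nonneg (by linarith)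
    have hK2' : ((K : ℝ) + 1) ^ 2 ≤ 361 * (1 + log (1 + ℓ)) ^ 2 := by
      calc ((K : ℝ) + 1) ^ 2 ≤ (19 * (1 + log (1 + ℓ))) ^ 2 :=
            pow_le_pow_left₀ (by positivity) hKb 2
        _ = _ := by ring
    set Λ := (1 + log (1 + ℓ)) ^ 2 with hΛd
    have hΛ0 : 0 ≤ Λ := sq_nonneg _
    calc 129 * ℓ * ((K : ℝ) + 1) ^ 2
        ≤ 129 * ℓ * (361 * Λ) := mul_le_mul_of_nonneg_left hK2' (by positivity)
      _ = 129 * 361 * (ℓ * Λ) := by ring
      _ ≤ 50000 * (ℓ * Λ) := mul_le_mul_of_nonneg_right (by norm_num) (by positivity)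
  · rw [le_div_iff₀ (by norm_num)]
    refine le_trans (le_of_eq ?_) hN1
    rw [hT0]; ring
  · have hT1X : T1 ≤ X ^ 40 := by
      calc T1 ≤ 2 ^ 39 * X := by rw [hT1, hT0]; linarith
        _ ≤ X ^ 39 * X := mul_le_mul_of_nonneg_right (pow_le_pow_left₀ (by norm_num) hX2 39) hX0.le
        _ = X ^ 40 := by rw [← pow_succ]
    have h4KX : (4 : ℝ) ^ K ≤ X ^ 38 := by
      calc (4 : ℝ) ^ K ≤ 464 * 10 ^ 8 * ℓ ^ 2 := h4K
        _ ≤ 2 ^ 36 * X ^ 2 := by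
            apply mul_le_mul (by norm_num) _ (by positivity) (by norm_num)
            exact pow_le_pow_left₀ hℓpos.le (by linarith) 2
        _ ≤ X ^ 36 * X ^ 2 := mul_le_mul_of_nonneg_right (pow_le_pow_left₀ (by norm_num) hX2 36)
            (by positivity)
        _ = X ^ 38 := by rw [← pow_add]
    have h := sizes hX2 hX rfl hD1 hd hT1X hT1pos h4KX rfl hW (by rw [hU]; rfl) hG hNG
      (Nat.cast_nonneg N)
    rw [hX] at h
    exact_mod_cast h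
  · by_contra hcon
    have h1 : K ≤ 4 := by omega
    have h2 : (4 : ℝ) ^ K ≤ 4 ^ 4 := pow_le_pow_right₀ (by norm_num) h1
    have h3 : (4 : ℝ) ^ 4 = 256 := by norm_num
    linarith

variable {V J : Type*} [Fintype V] [DecidableEq V] [Fintype J] [DecidableEq J]

theorem GG_le (P : Par V J) (hth0 : 0 ≤ P.th) (hov : ((P.K : ℝ) + 1) * P.ov ≤ 1)
    (hth : P.th * ((P.K : ℝ) + 1) ^ 2 ≤ 1) : P.GG (P.K + 1) ≤ 2665 := by
  unfold Par.GG
  rw [Finset.sum_add_distrib, Finset.sum_const, nsmul_eq_mul, Finset.card_range,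
    Finset.sum_range_succ]
  have hK0 : (0 : ℝ) < (P.K : ℝ) + 1 := by positivity
  have h0 : ∀ l, l < P.K → P.gp l ≤ 816 * ((1 : ℝ) / 2) ^ l + 816 / ((P.K : ℝ) + 1) := by
    intro l hl
    unfold Par.gp
    rw [if_pos hl]
    have h1 : √(1 / 4 ^ l + P.th) ≤ ((1 : ℝ) / 2) ^ l + 1 / ((P.K : ℝ) + 1) := by
      rw [sqrt_le_left (by positivity)]
      have e1 : (((1 : ℝ) / 2) ^ l) ^ 2 = 1 / 4 ^ l := by
        rw [← pow_mul, mul_comm, pow_mul, show ((1 : ℝ) / 2) ^ 2 = 1 / 4 by norm_num, one_div_pow]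
      have e2 : P.th ≤ (1 / ((P.K : ℝ) + 1)) ^ 2 := by
        rw [div_pow, one_pow, le_div_iff₀ (by positivity)]; exact hth
      have e3 : 0 ≤ ((1 : ℝ) / 2) ^ l * (1 / ((P.K : ℝ) + 1)) := by positivity
      nlinarith
    calc 816 * √(1 / 4 ^ l + P.th) ≤ 816 * (((1 : ℝ) / 2) ^ l + 1 / ((P.K : ℝ) + 1)) :=
          mul_le_mul_of_nonneg_left h1 (by norm_num)
      _ = _ := by ring
  have h1 : ∑ l ∈ range P.K, P.gp l ≤ 2448 := by
    calc ∑ l ∈ range P.K, P.gp l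
        ≤ ∑ l ∈ range P.K, (816 * ((1 : ℝ) / 2) ^ l + 816 / ((P.K : ℝ) + 1)) :=
          Finset.sum_le_sum fun l hl => h0 l (Finset.mem_range.1 hl)
      _ = 816 * ∑ l ∈ range P.K, ((1 : ℝ) / 2) ^ l + P.K * (816 / ((P.K : ℝ) + 1)) := by
          rw [Finset.sum_add_distrib, Finset.mul_sum, Finset.sum_const, nsmul_eq_mul,
            Finset.card_range]
      _ ≤ 816 * 2 + 816 := by
          apply add_le_add (mul_le_mul_of_nonneg_left (geom_le _) (by norm_num))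
          rw [mul_div_assoc', div_le_iff₀ hK0]
          linarith
      _ = 2448 := by norm_num
  have h2 : P.gp P.K ≤ 216 := by
    unfold Par.gp
    rw [if_neg (lt_irrefl _), sqrt_le_left (by norm_num)]
    norm_num
  push_cast
  linarith

theorem bf_core (c : J → V → ℝ) (hc : ∀ i, ∑ j, c j i ^ 2 ≤ 1) {D : ℕ} (hD1 : 1 ≤ D)
    (hrow : ∀ j, #(univ.filter fun i => c j i ≠ 0) ≤ D)
    (hcol : ∀ i, #(univ.filter fun j => c j i ≠ 0) ≤ D)
    (hD : ∀ j, #(univ.filter fun l => ∃ i, c j i ≠ 0 ∧ c l i ≠ 0) ≤ D)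
    {t0 : ℝ} (ht00 : 0 ≤ t0) (hent : ∀ j i, c j i ^ 2 ≤ t0)
    (ht0 : t0 * (50000 * (log (2 * D) * (1 + log (1 + log (2 * D))) ^ 2)) ≤ 1)
    (z : V → ℝ) (hz : ∀ i, |z i| ≤ 1) :
    ∃ χ : V → ℝ, (∀ i, χ i = 1 ∨ χ i = -1) ∧ ∀ j, |dev c z j χ| ≤ 8000 := by
  obtain ⟨K, d, N, γ, hnum⟩ := exists_num D hD1
  have hDr : (1 : ℝ) ≤ D := by exact_mod_cast hD1
  set X : ℝ := 2 * (D : ℝ) with hX
  have hX2 : 2 ≤ X := by rw [hX]; linarith
  have hX0 : 0 < X := by linarith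
  have hX1 : 1 ≤ X := by linarith
  set ℓ := log X with hℓ
  have hℓ0 : 0 ≤ ℓ := log_nonneg hX1
  have hK5 : (5 : ℝ) ≤ K := by exact_mod_cast hnum.hK5
  set th : ℝ := 1 / ((K : ℝ) + 1) ^ 2 with hth
  have hth0 : 0 ≤ th := by positivity
  have hK36 : (36 : ℝ) ≤ ((K : ℝ) + 1) ^ 2 := by nlinarith
  have hth30 : th ≤ 1 / 30 := by
    rw [hth, div_le_div_iff₀ (by positivity) (by norm_num)]
    linarith
  have hthK : th * ((K : ℝ) + 1) ^ 2 ≤ 1 := by
    rw [hth, one_div_mul_cancel (by positivity)]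
  have hKK : 15 * (1 + 4 ^ K * th) ≤ (4 : ℝ) ^ K := by
    have h1 : (4 : ℝ) ^ K * th ≤ 4 ^ K * (1 / 30) := mul_le_mul_of_nonneg_left hth30 (by positivity)
    have := hnum.hK4
    linarith
  -- the standing hypotheses
  have hOk : ∀ z : V → ℝ, (∀ i, |z i| ≤ 1) →
      (⟨c, D, K, d, z, γ, 1 / X, N, th⟩ : Par V J).Ok := fun z hz =>
    { hc := hc
      hrow := hrow
      hcol := hcol
      hD1 := hD1
      hd := hnum.hd
      hz := hz
      hγ := hnum.hγ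
      hδ := hnum.hδ
      hth := hth0
      hK := hKK }
  have hexp : ∀ m : ℕ, exp (-((m : ℝ) * ℓ)) = 1 / X ^ m := by
    intro m
    rw [exp_neg, exp_nat_mul, hℓ, exp_log hX0, one_div]
  have hρ2 : (1 / X ^ 64) ^ 2 = 1 / X ^ 128 := by
    rw [div_pow, one_pow, ← pow_mul]
  have hγs1 : 128 * γ ^ 2 * (D : ℝ) ^ 4 * UU D (4 ^ (K + 1)) d ^ 4 ≤ 1 := by
    refine hnum.hγs.trans ?_
    rw [div_le_one (by positivity)]
    exact one_le_pow₀ (by norm_num)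
  have hκ : 129 * ℓ * t0 ≤ th := by
    rw [hth, le_div_iff₀ (by positivity)]
    have h1 := mul_le_mul_of_nonneg_left hnum.hκ ht00
    calc 129 * ℓ * t0 * ((K : ℝ) + 1) ^ 2 = t0 * (129 * ℓ * ((K : ℝ) + 1) ^ 2) := by ring
      _ ≤ t0 * (50000 * (ℓ * (1 + log (1 + ℓ)) ^ 2)) := h1
      _ ≤ 1 := ht0
  have hPr : ∀ z : V → ℝ, (∀ i, |z i| ≤ 1) →
      (⟨c, D, K, d, z, γ, 1 / X, N, th⟩ : Par V J).Pr (1 / (2 * (D : ℝ)) ^ 64) := fun z hz =>
    { stop := by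
        intro T
        rw [← hX, hρ2]
        have h := Par.stop_prob (hOk z hz) (lam := 128 * ℓ / 23120) (by positivity) hnum.hγs
          hnum.hτ T
        refine h.trans (le_of_eq ?_)
        congr 1
        rw [show (23120 : ℝ) * (128 * ℓ / 23120) = ((128 : ℕ) : ℝ) * ℓ by push_cast; ring, hexp]
      tv := by
        intro T hT
        rw [← hX, hρ2]
        have hr0 : 0 ≤ 1 / X ^ 129 := by positivity
        have hr1 : 1 / X ^ 129 ≤ 1 := by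
          rw [div_le_one (by positivity)]; exact one_le_pow₀ hX1
        have hr2 : (1 / X ^ 129) ^ 2 = exp (-(((258 : ℕ) : ℝ) * ℓ)) := by
          rw [hexp, div_pow, one_pow, ← pow_mul]
        have h := Par.tv_prob (P := (⟨c, D, K, d, z, γ, 1 / X, N, th⟩ : Par V J)) hr0 hr1
          (fun A hA => by
            have h1 := Par.over_prob (hOk z hz) (κ := 129 * ℓ) (t0 := t0) (by positivity)
              hth30 hnum.hγU hent hκ A hA
            refine h1.trans (le_of_eq ?_)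
            congr 1
            rw [hr2]
            congr 1
            push_cast
            ring)
          (fun I => by
            have h1 := Par.surv_prob (hOk z hz) hγs1 I
            refine h1.trans (pow_le_pow_left₀ (exp_pos _).le ?_ _)
            rw [hr2]
            apply exp_le_exp.2
            change 1 - (N : ℝ) * γ ^ 2 / 2000000000 ≤ _
            have e1 := hnum.hsurv
            push_cast
            linarith) T hT
        refine h.trans (pow_le_pow_left₀ (by positivity) ?_ _)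
        rw [mul_one_div, div_le_div_iff₀ (by positivity) (by positivity), one_mul]
        calc 2 * X ^ 128 ≤ X * X ^ 128 := mul_le_mul_of_nonneg_right hX2 (by positivity)
          _ = X ^ 129 := by rw [← pow_succ'] }
  have hk2 : ((1 + 2 * D ^ 2) * (2 * D) ^ 20 * D) * (1 + D) < (2 * D) ^ 64 := by
    calc ((1 + 2 * D ^ 2) * (2 * D) ^ 20 * D) * (1 + D)
        ≤ ((2 * D) ^ 2 * (2 * D) ^ 20 * (2 * D)) * (2 * D) := by
          apply Nat.mul_le_mul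
          · apply Nat.mul_le_mul
            · apply Nat.mul_le_mul_right
              nlinarith
            · omega
          · omega
      _ = (2 * D) ^ 24 := by ring
      _ < (2 * D) ^ 64 := Nat.pow_lt_pow_right (by omega) (by norm_num)
  obtain ⟨χ, hχ1, hχ2⟩ := three_levels c D K d γ (1 / X) N th hOk hPr hD 2666 (fun z => by
      -- the bound does not depend on `z`
      have h1 := GG_le (⟨c, D, K, d, fun _ => 0, γ, 1 / X, N, th⟩ : Par V J)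
        hth0 hnum.hov hthK
      have h2 : (D : ℝ) * (1 / X) = 1 / 2 := by rw [hX]; field_simp
      rw [h2]
      have h3 : (⟨c, D, K, d, z, γ, 1 / X, N, th⟩ : Par V J).GG (K + 1)
          = (⟨c, D, K, d, fun _ => 0, γ, 1 / X, N, th⟩ : Par V J).GG (K + 1) := rfl
      rw [h3]
      change (⟨c, D, K, d, fun _ => 0, γ, 1 / X, N, th⟩ : Par V J).GG (K + 1) ≤ 2665 at h1
      linarith) (by norm_num) ((2 * D) ^ 20) hnum.hk hk2 z hz
  exact ⟨χ, hχ1, fun j => (hχ2 j).trans (by norm_num)⟩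

end Pool.Agent.Helper26.Bg
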