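import Pool.Agent.Helper26.Bg.Proc
import Pool.Agent.Helper26.Bg.Comb

set_option linter.unusedSectionVars false

namespace Pool.Agent.Helper26.Bg

open Finset Real
open Pool.Agent.Helper26.Bf
open Pool.Agent.Helper26.Loc (ee ee_self sum_ee_mul sum_mul_ee avg avg_mul_left avg_mul_right
  avg_mono avg_const avg_sum avg_slice sgb abs_sgb setSlice)
open Pool.Agent.Helper26.Gsw (dev)

namespace Par

variable {V J : Type*} [Fintype V] [DecidableEq V] [Fintype J] [DecidableEq J]

/-- slope of the level `k` -/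
noncomputable def lm (P : Par V J) (k : ℕ) : ℝ := √(4 ^ k * (1 + 4 ^ k * P.th) / 4624)

/-- slope vector of a sign choice -/
noncomputable def lv (P : Par V J) (st : St V J) (σ : J → Option Bool) (j : J) : ℝ :=
  vl (σ j) * P.lm (st.k j)

/-- exponent -/
noncomputable def Ps (P : Par V J) (st : St V J) (σ : J → Option Bool) : ℝ :=
  ∑ j, P.lv st σ j * (dev P.c P.z j st.x - st.s j)
    + qm P.c (P.alive st) st.x (P.wt st.k) (P.lv st σ)

/-- exponent after the move and before the update of the levels -/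
noncomputable def Pm (P : Par V J) (st : St V J) (x' : V → ℝ) (σ : J → Option Bool) : ℝ :=
  ∑ j, P.lv st σ j * (dev P.c P.z j x' - st.s j)
    + NN P.c (P.alive st) x' (P.wt st.k) (P.lv st σ)
      (um P.c (P.alive st) st.x (P.wt st.k) (P.lv st σ))

/-- weight of a sign choice -/
noncomputable def Gw (P : Par V J) (m : J → ℝ) (st : St V J) (σ : J → Option Bool) : ℝ :=
  ∏ j, gg (m j * P.wt st.k j) (σ j)

/-- the potential -/
noncomputable def Pt (P : Par V J) (m : J → ℝ) (st : St V J) : ℝ :=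
  ∑ σ : J → Option Bool, P.Gw m st σ * exp (P.Ps st σ)

variable {P : Par V J} (hP : P.Ok)
include hP

/-- one move -/
theorem mid_avg {st : St V J} (hI : P.Inv st) (hγU : 591872 * (P.γ * P.U ^ 3) ≤ 1)
    (σ : J → Option Bool) :
    avg (fun ξ : V → Bool => exp (P.Pm st (P.nx st fun p => sgb (ξ p)) σ)) ≤ exp (P.Ps st σ) := by
  have hst := stOk hP hI
  have hU0 := U_pos hP
  have hU1 : 1 ≤ P.U := hst.one_le_U
  have hγ := hP.hγ
  set A := P.alive st with hA
  set w := P.wt st.k with hw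
  set f := P.ff st with hf
  have hw0 : ∀ j, 0 < w j := P.wt_pos st.k
  set lam := P.lv st σ with hlam
  set u := um P.c A st.x w lam with hu
  set b : V → ℝ := fun i => ∑ j, P.c j i * u j with hb
  set s : V → ℝ := fun i => ss (st.x i) (9248 * b i) with hs
  set y : V → ℝ := fun i => f i * s i with hy
  have hs2 : ∀ i, s i ^ 2 ≤ 25 / 4 := by
    intro i
    have h1 := abs_ss_le (hI.hx i) (9248 * b i)
    rw [← sq_abs]
    calc |s i| ^ 2 ≤ (5 / 2) ^ 2 := pow_le_pow_left₀ (abs_nonneg _) h1 2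
      _ = 25 / 4 := by norm_num
  have hy16 : ∀ i, y i ^ 2 ≤ 16 := by
    intro i
    have h1 := ff_sq_le (P := P) hI.hx i
    calc y i ^ 2 = f i ^ 2 * s i ^ 2 := by simp only [hy]; ring
      _ ≤ 2 * (25 / 4) := mul_le_mul h1 (hs2 i) (sq_nonneg _) (by norm_num)
      _ ≤ 16 := by norm_num
  have hH : ∀ i, y i ≠ 0 → Hop P.c f w (ee i) i ≤ 16 := by
    intro i hi
    apply Hop_le hP hI
    by_contra h
    apply hi
    simp only [hy]
    rw [hf, ff_zero h, zero_mul]
  have hfA : ∀ i ∉ A, f i = 0 := fun i hi => ff_zero hi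
  -- stationarity
  have hstat : ∀ j, 9248 * (lam j - u j) = w j * sT P.c f y j := by
    intro j
    have h1 := stat (c := P.c) (A := A) (x := st.x) hw0 (fun i _ => hI.hx i) lam j
    rw [h1]
    congr 1
    rw [sT_apply, hA, sum_alive_aux]
    refine Finset.sum_congr rfl fun i _ => ?_
    by_cases hi : i ∈ P.alive st
    · rw [if_pos hi]
      have h2 : f i * y i = (2 - st.x i ^ 2) * s i := by
        simp only [hy]
        rw [← mul_assoc, ← sq, hf, ff_sq hI.hx hi]
      rw [h2]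
    · rw [if_neg hi, hfA i hi]
      ring
  have hHop : ∀ i, Hop P.c f w y i = f i * ∑ j, P.c j i * (9248 * (lam j - u j)) := by
    intro i
    rw [Hop_apply, sg_apply]
    congr 1
    exact Finset.sum_congr rfl fun j _ => by rw [hstat j]
  have key := step_exact hst y hy16 hH hγ.le (by exact hγU)
  have hUU : UU P.D P.W P.d = P.U := rfl
  rw [hUU] at key
  set Y := ∑ i, y i ^ 2 with hY
  set R := RO P.c f w P.e (2 * P.d) with hR
  have hpt : ∀ ξ : V → Bool, exp (P.Pm st (P.nx st fun p => sgb (ξ p)) σ)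
      ≤ exp (P.Ps st σ + 8 / 9248 * P.γ ^ 3 * P.U ^ 3 * Y) *
        exp (P.γ / 9248 * ∑ i, (y i + Hop P.c f w y i) * R (fun p => sgb (ξ p)) i
          - P.γ ^ 2 / 18496 * ∑ i, (y i * R (fun p => sgb (ξ p)) i) ^ 2) := by
    intro ξ
    rw [← exp_add]
    apply exp_le_exp.2
    set ξ' : V → ℝ := fun p => sgb (ξ p) with hξ'
    have hξ1 : ∀ i, |ξ' i| ≤ 1 := fun i => (abs_sgb _).le
    set x' := P.nx st ξ' with hx'
    set Δ : V → ℝ := fun i => x' i - st.x i with hΔ
    have hΔi : ∀ i, Δ i = P.γ * (f i * R ξ' i) := by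
      intro i
      simp only [hΔ, hx']
      unfold nx mvx
      rw [add_sub_cancel_left]
    have hRle : ∀ i, |R ξ' i| ≤ P.U := by
      intro i
      have h1 := abs_RO_le hst.hc hst.hrow hst.hcol hst.hf0 hst.hf hst.op.hw hst.hw hst.op
        zero_le_one hst.hW hξ1 (2 * P.d) i
      rw [mul_one] at h1
      exact h1
    have hΔ5 : ∀ i, |x' i - st.x i| ≤ 1 / 5 := by
      intro i
      refine (abs_nx_sub hP hI hξ1 i).trans ?_
      have h3 : P.γ * P.U ≤ P.γ * P.U ^ 3 := by
        apply mul_le_mul_of_nonneg_left _ hγ.le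
        calc P.U = P.U ^ 1 := (pow_one _).symm
          _ ≤ P.U ^ 3 := pow_le_pow_right₀ hU1 (by norm_num)
      linarith
    -- linear part
    have hdev : ∀ j, dev P.c P.z j x' = dev P.c P.z j st.x + ∑ i, P.c j i * Δ i := by
      intro j
      unfold dev
      rw [← Finset.sum_add_distrib]
      exact Finset.sum_congr rfl fun i _ => by simp only [hΔ]; ring
    have h1 : ∑ j, lam j * (dev P.c P.z j x' - st.s j)
        = ∑ j, lam j * (dev P.c P.z j st.x - st.s j) + ∑ i, (∑ j, P.c j i * lam j) * Δ i := by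
      have e1 : ∑ i, (∑ j, P.c j i * lam j) * Δ i = ∑ j, lam j * ∑ i, P.c j i * Δ i := by
        simp only [Finset.sum_mul, Finset.mul_sum]
        rw [Finset.sum_comm]
        exact Finset.sum_congr rfl fun j _ => Finset.sum_congr rfl fun i _ => by ring
      rw [e1, ← Finset.sum_add_distrib]
      exact Finset.sum_congr rfl fun j _ => by rw [hdev]; ring
    -- the energy part
    have h2 : ∑ i ∈ A, Ft (x' i) (9248 * b i) / 9248 ≤ ∑ i ∈ A, Ft (st.x i) (9248 * b i) / 9248
        + ∑ i, ((s i / 9248 - b i) * Δ i - (s i * Δ i) ^ 2 / 18496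
          + 2 / 9248 * |s i * Δ i| ^ 3) := by
      have e1 : ∑ i, ((s i / 9248 - b i) * Δ i - (s i * Δ i) ^ 2 / 18496
          + 2 / 9248 * |s i * Δ i| ^ 3) = ∑ i ∈ A, ((s i / 9248 - b i) * Δ i
            - (s i * Δ i) ^ 2 / 18496 + 2 / 9248 * |s i * Δ i| ^ 3) := by
        symm
        apply Finset.sum_subset (Finset.subset_univ A)
        intro i _ hi
        have : Δ i = 0 := by rw [hΔi, hfA i hi]; ring
        rw [this]
        simp
      rw [e1, ← Finset.sum_add_distrib]
      refine Finset.sum_le_sum fun i _ => ?_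
      have h3 := Ft_inc (hI.hx i) (abs_nx_le hP hI hξ1 i) (9248 * b i) (hΔ5 i)
      have e2 : (ss (st.x i) (9248 * b i) - 9248 * b i) * (P.nx st ξ' i - st.x i)
          - (ss (st.x i) (9248 * b i) * (P.nx st ξ' i - st.x i)) ^ 2 / 2
          + 2 * |ss (st.x i) (9248 * b i) * (P.nx st ξ' i - st.x i)| ^ 3
          = 9248 * ((s i / 9248 - b i) * Δ i - (s i * Δ i) ^ 2 / 18496
          + 2 / 9248 * |s i * Δ i| ^ 3) := by
        simp only [hs, hΔ]
        ring
      rw [e2] at h3
      rw [div_le_iff₀ (by norm_num), add_mul, div_mul_cancel₀ _ (by norm_num)]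
      linarith
    -- the cubic part
    have h3 : ∑ i, 2 / 9248 * |s i * Δ i| ^ 3 ≤ 8 / 9248 * P.γ ^ 3 * P.U ^ 3 * Y := by
      rw [hY, Finset.mul_sum]
      refine Finset.sum_le_sum fun i _ => ?_
      have e1 : s i * Δ i = P.γ * (y i * R ξ' i) := by rw [hΔi]; simp only [hy]; ring
      rw [e1, abs_mul, abs_mul, abs_of_pos hγ]
      have hy4 : |y i| ≤ 4 := by
        apply abs_le_of_sq_le_sq _ (by norm_num)
        have := hy16 i
        linarith
      have h4 : (P.γ * (|y i| * |R ξ' i|)) ^ 3 ≤ P.γ ^ 3 * (4 * y i ^ 2 * P.U ^ 3) := by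
        rw [mul_pow, mul_pow]
        apply mul_le_mul_of_nonneg_left _ (by positivity)
        apply mul_le_mul _ (pow_le_pow_left₀ (abs_nonneg _) (hRle i) 3) (by positivity)
          (by positivity)
        rw [← sq_abs (y i)]
        have h5 : 0 ≤ |y i| ^ 2 := by positivity
        calc |y i| ^ 3 = |y i| * |y i| ^ 2 := by ring
          _ ≤ 4 * |y i| ^ 2 := mul_le_mul_of_nonneg_right hy4 h5
      calc 2 / 9248 * (P.γ * (|y i| * |R ξ' i|)) ^ 3
          ≤ 2 / 9248 * (P.γ ^ 3 * (4 * y i ^ 2 * P.U ^ 3)) :=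
            mul_le_mul_of_nonneg_left h4 (by norm_num)
        _ = _ := by ring
    -- assembling the linear part
    have h4 : ∑ i, (∑ j, P.c j i * lam j) * Δ i + ∑ i, (s i / 9248 - b i) * Δ i
        = P.γ / 9248 * ∑ i, (y i + Hop P.c f w y i) * R ξ' i := by
      rw [← Finset.sum_add_distrib, Finset.mul_sum]
      refine Finset.sum_congr rfl fun i _ => ?_
      rw [hHop, hΔi]
      have e1 : ∑ j, P.c j i * (9248 * (lam j - u j))
          = 9248 * (∑ j, P.c j i * lam j - b i) := by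
        simp only [hb]
        rw [← Finset.sum_sub_distrib, Finset.mul_sum]
        exact Finset.sum_congr rfl fun j _ => by ring
      rw [e1]
      simp only [hy]
      ring
    have h5 : ∑ i, (s i * Δ i) ^ 2 / 18496
        = P.γ ^ 2 / 18496 * ∑ i, (y i * R ξ' i) ^ 2 := by
      rw [Finset.mul_sum]
      refine Finset.sum_congr rfl fun i _ => ?_
      rw [hΔi]
      simp only [hy]
      ring
    have h6 : ∑ i, ((s i / 9248 - b i) * Δ i - (s i * Δ i) ^ 2 / 18496
          + 2 / 9248 * |s i * Δ i| ^ 3) = ∑ i, (s i / 9248 - b i) * Δ i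
          - ∑ i, (s i * Δ i) ^ 2 / 18496 + ∑ i, 2 / 9248 * |s i * Δ i| ^ 3 := by
      rw [Finset.sum_add_distrib, Finset.sum_sub_distrib]
    unfold Pm Ps qm NN
    rw [← hA, ← hw, ← hlam, ← hu]
    rw [h1]
    rw [h6] at h2
    linarith
  refine (avg_mono hpt).trans ?_
  rw [avg_mul_left]
  refine (mul_le_mul_of_nonneg_left key (exp_pos _).le).trans (le_of_eq ?_)
  rw [← exp_add]
  congr 1
  ring
where
  sum_alive_aux {V : Type _} [Fintype V] [DecidableEq V] {A : Finset V} {g : V → ℝ} :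
      ∑ i ∈ A, g i = ∑ i, if i ∈ A then g i else 0 := by
    rw [Finset.sum_ite_mem, Finset.univ_inter]

omit hP in
theorem lm_sq (hth : 0 ≤ P.th) (k : ℕ) : P.lm k ^ 2 = 4 ^ k * (1 + 4 ^ k * P.th) / 4624 := by
  unfold lm
  rw [sq_sqrt (by positivity)]

omit hP in
theorem lm_nonneg (k : ℕ) : 0 ≤ P.lm k := sqrt_nonneg _

theorem lm_gp (k : ℕ) (hk : k ≤ P.K) : 12 * (1 + 4 ^ k * P.th) ≤ P.lm k * P.gp k := by
  have hth := hP.hth
  have h4 : (0 : ℝ) < 4 ^ k := by positivity
  have hl := lm_sq (P := P) hth k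
  have hl0 := P.lm_nonneg k
  have hg0 := (hP.gp_pos k).le
  apply le_of_sq_le_sq' _ (mul_nonneg hl0 hg0)
  rw [mul_pow (P.lm k), hl]
  rcases lt_or_eq_of_le hk with h | h
  · unfold gp
    rw [if_pos h, mul_pow 816, sq_sqrt (by positivity)]
    apply le_of_eq
    field_simp
    ring
  · subst h
    rw [P.gp_sq']
    have h5 := hP.hK
    set Y := 1 + 4 ^ P.K * P.th with hY
    have hY0 : 0 < Y := by positivity
    calc (12 * Y) ^ 2 = 144 / 15 * (15 * Y) * Y := by ring
      _ ≤ 144 / 15 * (4 ^ P.K) * Y := by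
          apply mul_le_mul_of_nonneg_right _ hY0.le
          exact mul_le_mul_of_nonneg_left h5 (by norm_num)
      _ ≤ 10 * 4 ^ P.K * Y := by
          apply mul_le_mul_of_nonneg_right _ hY0.le
          linarith
      _ = 4 ^ P.K * Y / 4624 * 46240 := by ring
where
  le_of_sq_le_sq' {a b : ℝ} (h : a ^ 2 ≤ b ^ 2) (hb : 0 ≤ b) : a ≤ b :=
    (abs_le_of_sq_le_sq' h hb).2

omit hP in
theorem lm_succ (hth : 0 ≤ P.th) (k : ℕ) : P.lm (k + 1) ≤ 4 * P.lm k := by
  unfold lm
  rw [sqrt_le_left (by positivity), mul_pow, sq_sqrt (by positivity)]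
  have h4 : (0 : ℝ) < 4 ^ k := by positivity
  rw [pow_succ]
  have : 0 ≤ (4 : ℝ) ^ k * P.th := by positivity
  rw [mul_div_assoc', div_le_div_iff_of_pos_right (by norm_num)]
  nlinarith

end Par

end Pool.Agent.Helper26.Bg
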