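import Pool.Agent.Helper26.Bf.Step

set_option linter.unusedSectionVars false

namespace Pool.Agent.Helper26.Bg

open Finset Real
open Pool.Agent.Helper26.Loc (ee ee_self sum_ee_mul sum_mul_ee avg avg_mul_left avg_mono sgb)
open Pool.Agent.Helper26.Bf

variable {V J : Type*} [Fintype V] [DecidableEq V] [Fintype J] [DecidableEq J]
variable {c : J → V → ℝ} {f : V → ℝ} {w : J → ℝ} {e Λ : ℝ} {D : ℕ} {W : ℝ} {d : ℕ}

/-- exactness of one step of the walk -/
theorem step_exact (h : StOk c f w e Λ D W d) (y : V → ℝ) (hy4 : ∀ i, y i ^ 2 ≤ 16)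
    (hH : ∀ i, y i ≠ 0 → Hop c f w (ee i) i ≤ 16) {γ : ℝ} (hγ : 0 ≤ γ)
    (hγU : 591872 * (γ * UU D W d ^ 3) ≤ 1) :
    avg (fun ξ : V → Bool => exp (γ / 9248 * ∑ i, (y i + Hop c f w y i)
          * RO c f w e (2 * d) (fun p => sgb (ξ p)) i
        - γ ^ 2 / 18496 * ∑ i, (y i * RO c f w e (2 * d) (fun p => sgb (ξ p)) i) ^ 2))
      ≤ exp (-(8 / 9248 * γ ^ 3 * UU D W d ^ 3 * ∑ i, y i ^ 2)) := by
  set U := UU D W d with hUdef
  have hU : 0 < U := h.U_pos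
  have hU1 : 1 ≤ U := h.one_le_U
  set R := RO c f w e (2 * d) with hR
  set Y := ∑ i, y i ^ 2 with hY
  have hY0 : 0 ≤ Y := Finset.sum_nonneg fun i _ => sq_nonneg _
  set l : V → ℝ := fun p => (y p - (NO c f w e ^ (2 * d)) y p) / 18496 with hl
  set m : V → V → ℝ := fun p q => -(1 / 18496 * ∑ i, y i ^ 2 * (R (ee p) i * R (ee q) i)) with hm
  have hRξ : ∀ (ξ : V → Bool) (i : V), R (fun p => sgb (ξ p)) i = ∑ p, sgb (ξ p) * R (ee p) i := by
    intro ξ i
    have h2 : (fun p => sgb (ξ p)) = ∑ p, sgb (ξ p) • ee p := by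
      funext q
      rw [Finset.sum_apply]
      simp [ee, Pi.single_apply]
    rw [h2, map_sum, Finset.sum_apply]
    refine Finset.sum_congr rfl fun p _ => ?_
    rw [map_smul, Pi.smul_apply, smul_eq_mul]
  have hlin : ∀ ξ : V → Bool, γ / 9248 * ∑ i, (y i + Hop c f w y i) * R (fun p => sgb (ξ p)) i
      = 2 * γ * ∑ p, sgb (ξ p) * l p := by
    intro ξ
    have h1 := RO_symm (c := c) (f := f) (w := w) (e := e) (2 * d)
      (fun i => y i + Hop c f w y i) (fun p => sgb (ξ p))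
    rw [← hR] at h1
    rw [h1]
    have h2 : ∀ i, R (fun i => y i + Hop c f w y i) i = y i - (NO c f w e ^ (2 * d)) y i := by
      intro i
      have h3 : (fun i => y i + Hop c f w y i) = y + Hop c f w y := rfl
      rw [h3, map_add, Pi.add_apply]
      exact res_apply' (2 * d) y i
    simp only [h2, hl]
    rw [Finset.mul_sum, Finset.mul_sum]
    exact Finset.sum_congr rfl fun i _ => by ring
  have hquad : ∀ ξ : V → Bool, -(γ ^ 2 / 18496 * ∑ i, (y i * R (fun p => sgb (ξ p)) i) ^ 2)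
      = γ ^ 2 * ∑ p, ∑ q, sgb (ξ p) * sgb (ξ q) * m p q := by
    intro ξ
    have h1 : ∀ i, (y i * R (fun p => sgb (ξ p)) i) ^ 2
        = ∑ p, ∑ q, sgb (ξ p) * sgb (ξ q) * (y i ^ 2 * (R (ee p) i * R (ee q) i)) := by
      intro i
      rw [hRξ, mul_pow, sq (∑ p, sgb (ξ p) * R (ee p) i), Finset.sum_mul_sum, Finset.mul_sum]
      refine Finset.sum_congr rfl fun p _ => ?_
      rw [Finset.mul_sum]
      exact Finset.sum_congr rfl fun q _ => by ring
    simp only [h1]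
    have h2 : ∑ i, ∑ p, ∑ q, sgb (ξ p) * sgb (ξ q) * (y i ^ 2 * (R (ee p) i * R (ee q) i))
        = ∑ p, ∑ q, sgb (ξ p) * sgb (ξ q) * ∑ i, (y i ^ 2 * (R (ee p) i * R (ee q) i)) := by
      rw [Finset.sum_comm]
      refine Finset.sum_congr rfl fun p _ => ?_
      rw [Finset.sum_comm]
      exact Finset.sum_congr rfl fun q _ => by rw [Finset.mul_sum]
    rw [h2]
    have h3 : ∀ p q, m p q = -(1 / 18496) * ∑ i, y i ^ 2 * (R (ee p) i * R (ee q) i) :=
      fun p q => by simp only [hm]; ring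
    simp only [h3]
    rw [Finset.mul_sum, Finset.mul_sum, ← Finset.sum_neg_distrib]
    refine Finset.sum_congr rfl fun p _ => ?_
    rw [Finset.mul_sum, Finset.mul_sum, ← Finset.sum_neg_distrib]
    exact Finset.sum_congr rfl fun q _ => by ring
  have hE : ∀ ξ : V → Bool, γ / 9248 * ∑ i, (y i + Hop c f w y i) * R (fun p => sgb (ξ p)) i
        - γ ^ 2 / 18496 * ∑ i, (y i * R (fun p => sgb (ξ p)) i) ^ 2
      = 2 * γ * ∑ p, sgb (ξ p) * l p + γ ^ 2 * ∑ p, ∑ q, sgb (ξ p) * sgb (ξ q) * m p q := by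
    intro ξ
    rw [← hlin, ← hquad]; ring
  simp only [hE]
  have hmsymm : ∀ p q, m p q = m q p := by
    intro p q
    simp only [hm]
    congr 2
    exact Finset.sum_congr rfl fun j _ => by ring
  refine (avg_exp_rad l m hmsymm γ hγ).trans (exp_le_exp.2 ?_)
  -- diagonal
  have hsymm : ∀ p i, R (ee p) i = R (ee i) p := fun p i => RO_ee_symm (2 * d) p i
  have hdiag : ∑ p, m p p ≤ -(4 / 18496 ^ 2 * Y) := by
    have e1 : ∑ p, m p p = -(1 / 18496 * ∑ i, y i ^ 2 * ∑ p, R (ee i) p ^ 2) := by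
      simp only [hm, Finset.sum_neg_distrib, ← Finset.mul_sum]
      rw [Finset.sum_comm]
      congr 2
      refine Finset.sum_congr rfl fun i _ => ?_
      rw [Finset.mul_sum]
      exact Finset.sum_congr rfl fun p _ => by rw [hsymm p i]; ring
    rw [e1]
    apply neg_le_neg
    have h1 : 1 / 4624 * Y ≤ ∑ i, y i ^ 2 * ∑ p, R (ee i) p ^ 2 := by
      rw [hY, Finset.mul_sum]
      refine Finset.sum_le_sum fun i _ => ?_
      by_cases h0 : y i = 0
      · rw [h0]; simp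
      · have := diag_lower h.op d h.hd (hH i h0)
        rw [mul_comm]
        exact mul_le_mul_of_nonneg_left this (sq_nonneg _)
    linarith
  -- linear part
  have hl2 : ∑ p, l p ^ 2 ≤ 1 / 18496 ^ 2 * Y := by
    have h1 := sub_sq_le h.op d y
    have h2 : ∑ p, l p ^ 2 = 1 / 18496 ^ 2 * ∑ p, (y p - (NO c f w e ^ (2 * d)) y p) ^ 2 := by
      rw [Finset.mul_sum]
      exact Finset.sum_congr rfl fun p _ => by simp only [hl]; ring
    rw [h2]
    exact mul_le_mul_of_nonneg_left h1 (by norm_num)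
  -- off diagonal part
  have hRp : ∀ p, ∑ q, |m p q| ≤ 1 / 18496 * U * ∑ i, y i ^ 2 * |R (ee p) i| := by
    intro p
    calc ∑ q, |m p q| ≤ ∑ q, 1 / 18496 * ∑ i, y i ^ 2 * (|R (ee p) i| * |R (ee q) i|) := by
          refine Finset.sum_le_sum fun q _ => ?_
          simp only [hm]
          rw [abs_neg, abs_mul, abs_of_pos (by norm_num : (0 : ℝ) < 1 / 18496)]
          apply mul_le_mul_of_nonneg_left _ (by norm_num)
          refine (Finset.abs_sum_le_sum_abs _ _).trans (Finset.sum_le_sum fun i _ => ?_)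
          rw [abs_mul, abs_mul, abs_of_nonneg (sq_nonneg (y i))]
      _ = 1 / 18496 * ∑ i, y i ^ 2 * |R (ee p) i| * ∑ q, |R (ee q) i| := by
          rw [← Finset.mul_sum, Finset.sum_comm]
          congr 1
          refine Finset.sum_congr rfl fun i _ => ?_
          rw [Finset.mul_sum]
          exact Finset.sum_congr rfl fun q _ => by ring
      _ ≤ 1 / 18496 * ∑ i, y i ^ 2 * |R (ee p) i| * U := by
          apply mul_le_mul_of_nonneg_left _ (by norm_num)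
          exact Finset.sum_le_sum fun i _ => mul_le_mul_of_nonneg_left (sum_RO_col h i)
            (mul_nonneg (sq_nonneg _) (abs_nonneg _))
      _ = _ := by rw [← Finset.sum_mul]; ring
  have hR0 : ∀ p, 0 ≤ ∑ q, |m p q| := fun p => Finset.sum_nonneg fun q _ => abs_nonneg _
  have hsup : ∀ p, ∑ q, |m p q| ≤ 16 / 18496 * U ^ 2 := by
    intro p
    refine (hRp p).trans ?_
    have h1 : ∑ i, y i ^ 2 * |R (ee p) i| ≤ 16 * U := by
      calc ∑ i, y i ^ 2 * |R (ee p) i| ≤ ∑ i, 16 * |R (ee p) i| :=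
            Finset.sum_le_sum fun i _ => mul_le_mul_of_nonneg_right (hy4 i) (abs_nonneg _)
        _ = 16 * ∑ i, |R (ee p) i| := by rw [Finset.mul_sum]
        _ ≤ 16 * U := mul_le_mul_of_nonneg_left (sum_RO_row h p) (by norm_num)
    calc 1 / 18496 * U * ∑ i, y i ^ 2 * |R (ee p) i| ≤ 1 / 18496 * U * (16 * U) :=
          mul_le_mul_of_nonneg_left h1 (by positivity)
      _ = _ := by ring
  have htot : ∑ p, ∑ q, |m p q| ≤ 1 / 18496 * U ^ 2 * Y := by
    calc ∑ p, ∑ q, |m p q| ≤ ∑ p, 1 / 18496 * U * ∑ i, y i ^ 2 * |R (ee p) i| :=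
          Finset.sum_le_sum fun p _ => hRp p
      _ = 1 / 18496 * U * ∑ i, y i ^ 2 * ∑ p, |R (ee p) i| := by
          rw [← Finset.mul_sum, Finset.sum_comm]
          congr 1
          exact Finset.sum_congr rfl fun i _ => by rw [Finset.mul_sum]
      _ ≤ 1 / 18496 * U * ∑ i, y i ^ 2 * U := by
          apply mul_le_mul_of_nonneg_left _ (by positivity)
          exact Finset.sum_le_sum fun i _ => mul_le_mul_of_nonneg_left (sum_RO_col h i) (sq_nonneg _)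
      _ = _ := by rw [← Finset.sum_mul]; ring
  have hoff : ∑ p, (∑ q, |m p q|) ^ 2 ≤ 16 / 18496 ^ 2 * U ^ 4 * Y := by
    calc ∑ p, (∑ q, |m p q|) ^ 2 ≤ ∑ p, 16 / 18496 * U ^ 2 * ∑ q, |m p q| := by
          refine Finset.sum_le_sum fun p _ => ?_
          rw [sq]
          exact mul_le_mul_of_nonneg_right (hsup p) (hR0 p)
      _ = 16 / 18496 * U ^ 2 * ∑ p, ∑ q, |m p q| := by rw [Finset.mul_sum]
      _ ≤ 16 / 18496 * U ^ 2 * (1 / 18496 * U ^ 2 * Y) :=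
          mul_le_mul_of_nonneg_left htot (by positivity)
      _ = _ := by ring
  have hsq : ∑ p, (|l p| + γ * ∑ q, |m p q|) ^ 2
      ≤ 3 / 2 * ∑ p, l p ^ 2 + 3 * γ ^ 2 * ∑ p, (∑ q, |m p q|) ^ 2 := by
    rw [Finset.mul_sum, Finset.mul_sum, ← Finset.sum_add_distrib]
    refine Finset.sum_le_sum fun p _ => ?_
    have h1 := sq_abs (l p)
    nlinarith [sq_nonneg (|l p| - 2 * (γ * ∑ q, |m p q|))]
  have hg2 : 0 ≤ γ ^ 2 := sq_nonneg _
  have t1 := mul_le_mul_of_nonneg_left hdiag hg2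
  have t2 := mul_le_mul_of_nonneg_left hsq (show 0 ≤ 2 * γ ^ 2 by positivity)
  have t3 := mul_le_mul_of_nonneg_left hl2 (show 0 ≤ 3 * γ ^ 2 by positivity)
  have t4 := mul_le_mul_of_nonneg_left hoff (show 0 ≤ 6 * γ ^ 4 by positivity)
  set a := γ * U ^ 3 with ha
  have ha0 : 0 ≤ a := by positivity
  have hγU4 : γ ^ 2 * U ^ 4 ≤ a ^ 2 := by
    have : U ^ 4 ≤ U ^ 6 := pow_le_pow_right₀ hU1 (by norm_num)
    calc γ ^ 2 * U ^ 4 ≤ γ ^ 2 * U ^ 6 := mul_le_mul_of_nonneg_left this hg2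
      _ = a ^ 2 := by rw [ha]; ring
  have ha1 : 591872 * a ≤ 1 := hγU
  have ha2 : a ^ 2 ≤ a / 591872 := by
    rw [le_div_iff₀ (by norm_num)]
    nlinarith
  have t5 : 6 * γ ^ 4 * (16 / 18496 ^ 2 * U ^ 4 * Y) ≤ (γ ^ 2 * Y) * (1 / 2 / 18496 ^ 2) := by
    have e1 : 6 * γ ^ 4 * (16 / 18496 ^ 2 * U ^ 4 * Y)
        = (γ ^ 2 * Y) * (96 / 18496 ^ 2 * (γ ^ 2 * U ^ 4)) := by ring
    rw [e1]
    apply mul_le_mul_of_nonneg_left _ (by positivity)
    have : γ ^ 2 * U ^ 4 ≤ 1 / 591872 ^ 2 := by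
      refine hγU4.trans (ha2.trans ?_)
      have : a ≤ 1 / 591872 := by rw [le_div_iff₀ (by norm_num)]; linarith
      linarith
    linarith
  have t6 : 8 / 9248 * γ ^ 3 * U ^ 3 * Y ≤ (γ ^ 2 * Y) * (1 / 2 / 18496 ^ 2) := by
    have e1 : 8 / 9248 * γ ^ 3 * U ^ 3 * Y = (γ ^ 2 * Y) * (8 / 9248 * a) := by rw [ha]; ring
    rw [e1]
    apply mul_le_mul_of_nonneg_left _ (by positivity)
    linarith
  have e2 : γ ^ 2 * -(4 / 18496 ^ 2 * Y) = -((γ ^ 2 * Y) * (4 / 18496 ^ 2)) := by ring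
  have e3 : 3 * γ ^ 2 * (1 / 18496 ^ 2 * Y) = (γ ^ 2 * Y) * (3 / 18496 ^ 2) := by ring
  rw [e2] at t1
  rw [e3] at t3
  calc γ ^ 2 * ∑ p, m p p + 2 * γ ^ 2 * ∑ p, (|l p| + γ * ∑ q, |m p q|) ^ 2
      ≤ -((γ ^ 2 * Y) * (4 / 18496 ^ 2)) + 2 * γ ^ 2 * (3 / 2 * ∑ p, l p ^ 2
          + 3 * γ ^ 2 * ∑ p, (∑ q, |m p q|) ^ 2) := add_le_add t1 t2
    _ = -((γ ^ 2 * Y) * (4 / 18496 ^ 2)) + 3 * γ ^ 2 * ∑ p, l p ^ 2
          + 6 * γ ^ 4 * ∑ p, (∑ q, |m p q|) ^ 2 := by ring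
    _ ≤ -((γ ^ 2 * Y) * (4 / 18496 ^ 2)) + (γ ^ 2 * Y) * (3 / 18496 ^ 2)
          + (γ ^ 2 * Y) * (1 / 2 / 18496 ^ 2) := by linarith
    _ = -((γ ^ 2 * Y) * (1 / 2 / 18496 ^ 2)) := by ring
    _ ≤ _ := by linarith

end Pool.Agent.Helper26.Bg
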