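import Pool.Agent.Helper26.Bg.Level

set_option linter.unusedSectionVars false

namespace Pool.Agent.Helper26.Bg

open Finset Real
open Pool.Agent.Helper26.Bf
open Pool.Agent.Helper26.Gsw (dev touched eq_or_of_abs)

variable {V J : Type*} [Fintype V] [DecidableEq V] [Fintype J] [DecidableEq J]

/-- three levels -/
theorem three_levels (c : J → V → ℝ) (D K d : ℕ) (γ δ : ℝ) (N : ℕ) (Mc : ℝ)
    (hOk : ∀ z : V → ℝ, (∀ i, |z i| ≤ 1) → (⟨c, D, K, d, z, γ, δ, N, Mc⟩ : Par V J).Ok)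
    (hPr : ∀ z : V → ℝ, (∀ i, |z i| ≤ 1) →
      (⟨c, D, K, d, z, γ, δ, N, Mc⟩ : Par V J).Pr (1 / (2 * (D : ℝ)) ^ 64))
    (hD : ∀ j, #(univ.filter fun l => ∃ i, c j i ≠ 0 ∧ c l i ≠ 0) ≤ D)
    (B : ℝ) (hB : ∀ z : V → ℝ, (⟨c, D, K, d, z, γ, δ, N, Mc⟩ : Par V J).GG (K + 1) + D * δ ≤ B)
    (hB0 : 0 ≤ B)
    (k : ℕ) (hk1 : ((1 + 2 * D ^ 2) * (N * (2 * d + 1)) * D) * (1 + D) < (2 * D) ^ (52 * k + 64))
    (hk2 : ((1 + 2 * D ^ 2) * k * D) * (1 + D) < (2 * D) ^ 64)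
    (z : V → ℝ) (hz : ∀ i, |z i| ≤ 1) :
    ∃ χ : V → ℝ, (∀ i, χ i = 1 ∨ χ i = -1) ∧ ∀ j, |dev c z j χ| ≤ 3 * B := by
  classical
  -- level 0: no touched row
  have h0 : ∀ Z : V → ℝ, (∀ i, |Z i| ≤ 1) → #(touched c Z) ≤ 0 * D →
      ∃ χ : V → ℝ, (∀ i, χ i = 1 ∨ χ i = -1) ∧ (∀ i, |Z i| = 1 → χ i = Z i) ∧
        ∀ j, |dev c Z j χ| ≤ 0 := by
    intro Z hZ ht
    rw [zero_mul, Nat.le_zero, Finset.card_eq_zero] at ht
    refine ⟨fun i => if |Z i| = 1 then Z i else 1, fun i => ?_, fun i hi => by simp [hi],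
      fun j => ?_⟩
    · by_cases h : |Z i| = 1
      · simp only [h, if_true]; exact eq_or_of_abs h
      · simp [h]
    · apply le_of_eq
      rw [abs_eq_zero]
      refine Finset.sum_eq_zero fun i _ => ?_
      by_cases h : |Z i| = 1
      · simp [h]
      · by_cases h0 : c j i = 0
        · rw [h0, zero_mul]
        · exfalso
          have : j ∈ touched c Z := by
            simp only [touched, Finset.mem_filter, Finset.mem_univ, true_and]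
            exact ⟨i, h0, lt_of_le_of_ne (hZ i) h⟩
          rw [ht] at this
          exact absurd this (Finset.notMem_empty j)
  -- level 1
  have h1 : ∀ Z : V → ℝ, (∀ i, |Z i| ≤ 1) → #(touched c Z) ≤ ((1 + 2 * D ^ 2) * k) * D →
      ∃ χ : V → ℝ, (∀ i, χ i = 1 ∨ χ i = -1) ∧ (∀ i, |Z i| = 1 → χ i = Z i) ∧
        ∀ j, |dev c Z j χ| ≤ B := by
    intro Z hZ ht
    obtain ⟨ω, hω⟩ := Par.good_union (hOk Z hZ) hD (hPr Z hZ) 0 _ ht (by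
      rw [mul_zero, zero_add]; exact hk2)
    rw [mul_zero] at hω
    obtain ⟨χ, a1, a2, a3⟩ := Par.level (hOk Z hZ) hD hω le_rfl h0
    refine ⟨χ, a1, a2, fun j => (a3 j).trans ?_⟩
    have := hB Z
    linarith
  -- level 2
  have h2 : ∀ Z : V → ℝ, (∀ i, |Z i| ≤ 1) →
      #(touched c Z) ≤ ((1 + 2 * D ^ 2) * (N * (2 * d + 1))) * D →
      ∃ χ : V → ℝ, (∀ i, χ i = 1 ∨ χ i = -1) ∧ (∀ i, |Z i| = 1 → χ i = Z i) ∧
        ∀ j, |dev c Z j χ| ≤ B + B := by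
    intro Z hZ ht
    obtain ⟨ω, hω⟩ := Par.good_union (hOk Z hZ) hD (hPr Z hZ) k _ ht hk1
    obtain ⟨χ, a1, a2, a3⟩ := Par.level (hOk Z hZ) hD hω hB0 h1
    exact ⟨χ, a1, a2, fun j => (a3 j).trans (add_le_add (hB Z) le_rfl)⟩
  -- level 3
  obtain ⟨ω, hω⟩ := Par.good_lll (hOk z hz) hD (hPr z hz)
  obtain ⟨χ, a1, a2, a3⟩ := Par.level (hOk z hz) hD hω (add_nonneg hB0 hB0) h2
  refine ⟨χ, a1, fun j => (a3 j).trans ?_⟩
  have := hB z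
  linarith

end Pool.Agent.Helper26.Bg
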